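import Mathlib
import Pool.Agent.H117R2.UC.Defs

set_option autoImplicit false

namespace Pool.Agent.H541R2.UC
open Real Pool.Agent.H117R2.UC

lemma log_one_sub_le {d : ℝ} (h0 : 0 ≤ d) (h1 : d < 1) : log (1 - d) ≤ -d - d ^ 2 / 2 := by
  have h := Real.hasSum_pow_div_log_of_abs_lt_one (x := d) (by rw [abs_of_nonneg h0]; exact h1)
  have h2 := sum_le_hasSum (Finset.range 2) (fun i _ => by positivity) h
  simp [Finset.sum_range_succ] at h2
  norm_num at h2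
  linarith

lemma log_25 : (32186 / 10000 : ℝ) ≤ log 25 := by
  have h1 : log 25 = 2 * log 5 := by
    rw [show (25 : ℝ) = 5 ^ 2 by norm_num, Real.log_pow]; norm_num
  have h2 : 3 * log 5 = 7 * log 2 - log (128 / 125) := by
    have : log (128 / 125) = 7 * log 2 - 3 * log 5 := by
      rw [Real.log_div (by norm_num) (by norm_num), show (128 : ℝ) = 2 ^ 7 by norm_num,
        show (125 : ℝ) = 5 ^ 3 by norm_num, Real.log_pow, Real.log_pow]
      norm_num
    linarith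
  have h3 : log (128 / 125) ≤ 128 / 125 - 1 := Real.log_le_sub_one_of_pos (by norm_num)
  have h4 := Real.log_two_gt_d9
  linarith

lemma AH_diag {x : ℝ} (h0 : 0 < x) (h1 : x < 1) : AH x x =
    -(343 / 1234) * x ^ 2 * log x - (1 - x) * (1 + x - 2125 / 1234 * x) * log (1 - x)
      - (1 - x ^ 2) * log (1 + x) := by
  have e1 : log (x * x) = 2 * log x := by
    rw [Real.log_mul h0.ne' h0.ne']; ring
  have e2 : log (1 - x * x) = log (1 - x) + log (1 + x) := by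
    rw [show 1 - x * x = (1 - x) * (1 + x) by ring, Real.log_mul (by linarith) (by linarith)]
  unfold AH hb Real.negMulLog
  rw [e1, e2]
  ring

lemma Gk_diag {x : ℝ} (h0 : 1 / 3 ≤ x) (h1 : x < 1) : Gk x x =
    (4 * x ^ 2 * (1 - x ^ 2) * (1 + x) ^ 2 + 4 * x ^ 2 * (1 - 2 * x ^ 2) * (1 - x) * (1 + x)
      - 4 * x ^ 4 * (1 - x) ^ 2) / (1 + x) ^ 2 := by
  have hm : max 0 (1 / 2 + 3 / 2 * (x * x) - x - x) = 0 := by
    apply max_eq_left
    nlinarith
  unfold Gk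
  rw [hm]
  have h2 : 1 - x * x = (1 - x) * (1 + x) := by ring
  have h3 : (1 - x) ≠ 0 := by linarith
  have h4 : (1 + x) ≠ 0 := by linarith
  rw [h2]
  field_simp
  ring

lemma key {d : ℝ} (h0 : 0 ≤ d) (h1 : d ≤ 1 / 25) : 0 ≤
    (2 - d) ^ 2 * (d * ((2 - d - 2125 / 1234 * (1 - d)) * (32186 / 10000 + 1 - 25 * d)
      - (2 - d) * (693148 / 1000000 - d / 2 - d ^ 2 / 8))
      + 343 / 1234 * (1 - d) ^ 2 * (d + d ^ 2 / 2)
      + 433 / 10000 * ((1 - d - 617 / 1000) * (-(131 / 500) + 36 / 25 * (1 - d)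
        - 162 / 125 * (1 - d) ^ 3) / (617 / 1000))
      - 433 / 10000 * ((4 * (1 - d) * d - 3 / 50) * (71 / 50)) - 4 / 10000)
      + 433 / 10000 * (4 * (1 - d) ^ 2 * (1 - (1 - d) ^ 2) * (2 - d) ^ 2
        + 4 * (1 - d) ^ 2 * (1 - 2 * (1 - d) ^ 2) * d * (2 - d) - 4 * (1 - d) ^ 4 * d ^ 2) := by
  have h2 : 0 ≤ 1 - 25 * d := by linarith
  have e : (2 - d) ^ 2 * (d * ((2 - d - 2125 / 1234 * (1 - d)) * (32186 / 10000 + 1 - 25 * d)
      - (2 - d) * (693148 / 1000000 - d / 2 - d ^ 2 / 8))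
      + 343 / 1234 * (1 - d) ^ 2 * (d + d ^ 2 / 2)
      + 433 / 10000 * ((1 - d - 617 / 1000) * (-(131 / 500) + 36 / 25 * (1 - d)
        - 162 / 125 * (1 - d) ^ 3) / (617 / 1000))
      - 433 / 10000 * ((4 * (1 - d) * d - 3 / 50) * (71 / 50)) - 4 / 10000)
      + 433 / 10000 * (4 * (1 - d) ^ 2 * (1 - (1 - d) ^ 2) * (2 - d) ^ 2
        + 4 * (1 - d) ^ 2 * (1 - 2 * (1 - d) ^ 2) * d * (2 - d) - 4 * (1 - d) ^ 4 * d ^ 2) =
      (453197 / 964062500 : ℝ) * ((25 * d) ^ 0 * (1 - 25 * d) ^ 6) +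
      (327204449 / 12050781250 : ℝ) * ((25 * d) ^ 1 * (1 - 25 * d) ^ 5) +
      (260197946037 / 2410156250000 : ℝ) * ((25 * d) ^ 2 * (1 - 25 * d) ^ 4) +
      (1999688381867 / 12050781250000 : ℝ) * ((25 * d) ^ 3 * (1 - 25 * d) ^ 3) +
      (34557608902429 / 301269531250000 : ℝ) * ((25 * d) ^ 4 * (1 - 25 * d) ^ 2) +
      (229655120908743 / 7531738281250000 : ℝ) * ((25 * d) ^ 5 * (1 - 25 * d) ^ 1) +
      (1681866168589 / 3765869140625000 : ℝ) * ((25 * d) ^ 6 * (1 - 25 * d) ^ 0) := by ring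
  rw [e]
  positivity

theorem D_top {x : ℝ} (h0 : 24 / 25 ≤ x) (h1 : x ≤ 1) :
    4 / 10000 ≤ D1 x - 433 / 10000 * ((om x - 3 / 50) * (71 / 50)) := by
  rcases eq_or_lt_of_le h1 with rfl | hlt
  · unfold D1 AH Gk xiH om hb Real.negMulLog
    norm_num
  · have hx0 : 0 < x := by linarith
    set d := 1 - x with hd
    have hx : x = 1 - d := by rw [hd]; ring
    have hd0 : 0 < d := by rw [hd]; linarith
    have hd1 : d ≤ 1 / 25 := by rw [hd]; linarith
    have l1 : log x ≤ -d - d ^ 2 / 2 := by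
      rw [hx]; exact log_one_sub_le hd0.le (by linarith)
    have l2 : log d ≤ 25 * d - 1 - 32186 / 10000 := by
      have h2 : log (25 * d) ≤ 25 * d - 1 := Real.log_le_sub_one_of_pos (by linarith)
      rw [Real.log_mul (by norm_num) hd0.ne'] at h2
      have := log_25
      linarith
    have l3 : log (1 + x) ≤ 693148 / 1000000 - d / 2 - d ^ 2 / 8 := by
      have h2 : log (1 - d / 2) ≤ -(d / 2) - (d / 2) ^ 2 / 2 :=
        log_one_sub_le (by linarith) (by linarith)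
      have h3 : log (1 + x) = log 2 + log (1 - d / 2) := by
        rw [← Real.log_mul (by norm_num) (by linarith)]
        congr 1
        rw [hx]; ring
      have h4 := Real.log_two_lt_d9
      rw [h3]
      nlinarith
    have hAH := AH_diag hx0 hlt
    rw [← hd] at hAH
    have hG := Gk_diag (by linarith) hlt
    have c1 : 0 ≤ 343 / 1234 * x ^ 2 := by positivity
    have c2 : 0 ≤ d * (1 + x - 2125 / 1234 * x) := by
      apply mul_nonneg hd0.le; linarith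
    have c3 : 0 ≤ 1 - x ^ 2 := by nlinarith
    have m1 := mul_le_mul_of_nonneg_left l1 c1
    have m2 := mul_le_mul_of_nonneg_left l2 c2
    have m3 := mul_le_mul_of_nonneg_left l3 c3
    have hk := key hd0.le hd1
    have hpos : 0 < (1 + x) ^ 2 := by positivity
    have hmain : 0 ≤ (-(343 / 1234 * x ^ 2 * (-d - d ^ 2 / 2))
        - d * (1 + x - 2125 / 1234 * x) * (25 * d - 1 - 32186 / 10000)
        - (1 - x ^ 2) * (693148 / 1000000 - d / 2 - d ^ 2 / 8)) +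
        433 / 10000 * ((4 * x ^ 2 * (1 - x ^ 2) * (1 + x) ^ 2 +
          4 * x ^ 2 * (1 - 2 * x ^ 2) * (1 - x) * (1 + x)
      - 4 * x ^ 4 * (1 - x) ^ 2) / (1 + x) ^ 2 + (x - 617 / 1000) * xiH x / (617 / 1000))
      - 433 / 10000 * ((om x - 3 / 50) * (71 / 50)) - 4 / 10000 := by
      have e2 : (-(343 / 1234 * x ^ 2 * (-d - d ^ 2 / 2))
        - d * (1 + x - 2125 / 1234 * x) * (25 * d - 1 - 32186 / 10000)
        - (1 - x ^ 2) * (693148 / 1000000 - d / 2 - d ^ 2 / 8)) +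
        433 / 10000 * ((4 * x ^ 2 * (1 - x ^ 2) * (1 + x) ^ 2 +
          4 * x ^ 2 * (1 - 2 * x ^ 2) * (1 - x) * (1 + x)
      - 4 * x ^ 4 * (1 - x) ^ 2) / (1 + x) ^ 2 + (x - 617 / 1000) * xiH x / (617 / 1000))
      - 433 / 10000 * ((om x - 3 / 50) * (71 / 50)) - 4 / 10000 =
        ((2 - d) ^ 2 * (d * ((2 - d - 2125 / 1234 * (1 - d)) * (32186 / 10000 + 1 - 25 * d)
      - (2 - d) * (693148 / 1000000 - d / 2 - d ^ 2 / 8))
      + 343 / 1234 * (1 - d) ^ 2 * (d + d ^ 2 / 2)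
      + 433 / 10000 * ((1 - d - 617 / 1000) * (-(131 / 500) + 36 / 25 * (1 - d)
        - 162 / 125 * (1 - d) ^ 3) / (617 / 1000))
      - 433 / 10000 * ((4 * (1 - d) * d - 3 / 50) * (71 / 50)) - 4 / 10000)
      + 433 / 10000 * (4 * (1 - d) ^ 2 * (1 - (1 - d) ^ 2) * (2 - d) ^ 2
        + 4 * (1 - d) ^ 2 * (1 - 2 * (1 - d) ^ 2) * d * (2 - d) - 4 * (1 - d) ^ 4 * d ^ 2))
          / (1 + x) ^ 2 := by
        unfold xiH om
        rw [eq_div_iff hpos.ne']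
        have h5 : (4 * x ^ 2 * (1 - x ^ 2) * (1 + x) ^ 2 +
          4 * x ^ 2 * (1 - 2 * x ^ 2) * (1 - x) * (1 + x)
          - 4 * x ^ 4 * (1 - x) ^ 2) / (1 + x) ^ 2 * (1 + x) ^ 2 = (4 * x ^ 2 * (1 - x ^ 2) * (1 + x) ^ 2 +
          4 * x ^ 2 * (1 - 2 * x ^ 2) * (1 - x) * (1 + x)
          - 4 * x ^ 4 * (1 - x) ^ 2) := div_mul_cancel₀ _ hpos.ne'
        generalize (4 * x ^ 2 * (1 - x ^ 2) * (1 + x) ^ 2 +
          4 * x ^ 2 * (1 - 2 * x ^ 2) * (1 - x) * (1 + x)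
          - 4 * x ^ 4 * (1 - x) ^ 2) / (1 + x) ^ 2 = g at h5 ⊢
        rw [hx] at h5 ⊢
        linear_combination (433 / 10000) * h5
      rw [e2]
      exact div_nonneg hk hpos.le
    unfold D1
    rw [hAH, hG]
    linarith

end Pool.Agent.H541R2.UC
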