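import Pool.Agent.H541R2.Model

set_option autoImplicit false

namespace Pool.Agent.H541R2

/-- One step of a deterministic two-way pushdown automaton with `k` input heads, in the format of the
problem: the transition depends on the state, the symbols under the heads and the top of the stack; it
gives the new state, the head moves and the word that replaces the top of the stack. -/
def pdaStep {α : Type} {k : ℕ} {Q Γ : Type}
    (δ : Q → (Fin k → Bool × Option α) → Option Γ → Q × (Fin k → Fin 3) × List Γ) (w : List α)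
    (c : Q × (Fin k → ℕ) × List Γ) : Q × (Fin k → ℕ) × List Γ :=
  ((δ c.1 (fun i => rd w (c.2.1 i)) c.2.2.head?).1,
    fun i => mv w.length ((δ c.1 (fun i => rd w (c.2.1 i)) c.2.2.head?).2.1 i) (c.2.1 i),
    (δ c.1 (fun i => rd w (c.2.1 i)) c.2.2.head?).2.2 ++ c.2.2.tail)

/-- `L` is accepted by a deterministic two-way pushdown automaton with one input head. -/
def TwoDPDA {α : Type} (L : Set (List α)) : Prop :=
  ∃ (Q Γ : Type) (_ : Fintype Q) (_ : Fintype Γ)
    (δ : Q → (Fin 1 → Bool × Option α) → Option Γ → Q × (Fin 1 → Fin 3) × List Γ) (q₀ : Q) (F : Set Q),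
    ∀ w : List α, w ∈ L ↔ ∃ m : ℕ, ((pdaStep δ w)^[m] (q₀, (fun _ => 0), [])).1 ∈ F

/-- States: phase, (cur, par, ok), letter. -/
abbrev PS := Fin 10 × (Bool × Bool × Bool) × Fin 4

/-- The simplified transition function. -/
def dd (q : PS) (x : Bool × Option (Fin 4)) (top : Bool) : PS × Fin 3 × Fin 3 :=
  if q.1 = 0 then ((1, (true, false, true), 0), 2, 1)
  else if q.1 = 1 then
    (if x.2 = none ∨ x.2 = some 3 then ((if q.2.1.2.1 then 8 else 9, q.2.1, 0), 1, 1)
     else ((2, (q.2.1.1, q.2.1.2.1, true), x.2.getD 0), 1, 1))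
  else if q.1 = 2 then
    (if x.1 then ((3, q.2), 2, 1) else (q, 0, 2))
  else if q.1 = 3 then
    (if x.2 = some 3 then ((4, q.2), 1, 1) else if x.2 = none then ((6, q.2), 0, 1) else (q, 2, 1))
  else if q.1 = 4 then
    (if top then (q, 2, 0)
     else ((5, (q.2.1.1, q.2.1.2.1, q.2.1.2.2 && decide (x.2 = some q.2.2)), q.2.2), 1, 1))
  else if q.1 = 5 then
    (if x.2 = some 3 then ((3, q.2), 2, 1) else (q, 0, 2))
  else if q.1 = 6 then
    (if x.1 then ((7, q.2), 1, 1) else (q, 0, 1))
  else if q.1 = 7 then
    (if top then (q, 2, 0)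
     else if q.2.2 = 2 then ((1, (true, xor q.2.1.2.1 (q.2.1.1 && q.2.1.2.2), true), 0), 2, 1)
     else ((1, (q.2.1.1 && q.2.1.2.2, q.2.1.2.1, true), 0), 2, 1))
  else (q, 1, 1)

/-- The simplified step; the last component is the height of the stack. -/
def sstep (w : List (Fin 4)) (c : PS × ℕ × ℕ) : PS × ℕ × ℕ :=
  ((dd c.1 (rd w c.2.1) (decide (c.2.2 ≠ 0))).1,
    mv w.length (dd c.1 (rd w c.2.1) (decide (c.2.2 ≠ 0))).2.1 c.2.1,
    if (dd c.1 (rd w c.2.1) (decide (c.2.2 ≠ 0))).2.2 = 0 then c.2.2 - 1
    else if (dd c.1 (rd w c.2.1) (decide (c.2.2 ≠ 0))).2.2 = 1 then c.2.2 else c.2.2 + 1)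

/-- The actual transition function. -/
def del (q : PS) (x : Fin 1 → Bool × Option (Fin 4)) (top : Option Unit) :
    PS × (Fin 1 → Fin 3) × List Unit :=
  ((dd q (x 0) top.isSome).1, fun _ => (dd q (x 0) top.isSome).2.1,
    if (dd q (x 0) top.isSome).2.2 = 0 then []
    else if (dd q (x 0) top.isSome).2.2 = 1 then (if top.isSome then [()] else [])
    else () :: (if top.isSome then [()] else []))

def emb (c : PS × ℕ × ℕ) : PS × (Fin 1 → ℕ) × List Unit :=
  (c.1, fun _ => c.2.1, List.replicate c.2.2 ())

theorem step_emb (w : List (Fin 4)) (c : PS × ℕ × ℕ) :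
    pdaStep del w (emb c) = emb (sstep w c) := by
  obtain ⟨q, p, m⟩ := c
  have htop : ((List.replicate m ()).head?).isSome = decide (m ≠ 0) := by
    cases m <;> simp [List.replicate_succ]
  unfold pdaStep emb sstep del
  simp only [htop]
  refine Prod.ext rfl (Prod.ext rfl ?_)
  simp only
  generalize (dd q (rd w p) (decide (m ≠ 0))).2.2 = o
  cases m with
  | zero =>
    fin_cases o <;> simp
  | succ m =>
    fin_cases o <;> simp [List.replicate_succ]

theorem iter_emb (w : List (Fin 4)) (m : ℕ) (c : PS × ℕ × ℕ) :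
    (pdaStep del w)^[m] (emb c) = emb ((sstep w)^[m] c) := by
  induction m generalizing c with
  | zero => rfl
  | succ m ih => rw [Function.iterate_succ_apply, Function.iterate_succ_apply, step_emb, ih]

/-- Reachability. -/
def Rch (w : List (Fin 4)) (c c' : PS × ℕ × ℕ) : Prop := ∃ m, (sstep w)^[m] c = c'

theorem Rch.refl {w : List (Fin 4)} (c : PS × ℕ × ℕ) : Rch w c c := ⟨0, rfl⟩

theorem Rch.trans {w : List (Fin 4)} {a b c : PS × ℕ × ℕ} (h1 : Rch w a b) (h2 : Rch w b c) :
    Rch w a c := by
  obtain ⟨m, rfl⟩ := h1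
  obtain ⟨m', rfl⟩ := h2
  exact ⟨m' + m, by rw [Function.iterate_add_apply]⟩

theorem Rch.one {w : List (Fin 4)} {a b : PS × ℕ × ℕ} (h : sstep w a = b) : Rch w a b := ⟨1, h⟩

section Phases

variable {w : List (Fin 4)} {cur par ok : Bool} {s : Bool × Bool × Bool} {a : Fin 4}

theorem rch_back (m p : ℕ) : Rch w ((2, s, a), p, m) ((2, s, a), 0, m + p) := by
  induction p generalizing m with
  | zero => exact Rch.refl _
  | succ p ih =>
    refine (Rch.one ?_).trans (by
      have := ih (m + 1)
      rwa [show m + 1 + p = m + (p + 1) by ring] at this)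
    simp [sstep, dd, rd, mv]

theorem rch_back_end (m : ℕ) : Rch w ((2, s, a), 0, m) ((3, s, a), 1, m) := by
  apply Rch.one
  simp [sstep, dd, rd, mv]

theorem rch_seek (m p r : ℕ) (hp : 1 ≤ p)
    (h : ∀ i, i < r → ∃ b, w[p - 1 + i]? = some b ∧ b ≠ 3) :
    Rch w ((3, s, a), p, m) ((3, s, a), p + r, m) := by
  induction r generalizing p with
  | zero => exact Rch.refl _
  | succ r ih =>
    obtain ⟨b, hb1, hb2⟩ := h 0 (by omega)
    have hlt : p - 1 < w.length := by
      by_contra hlt
      rw [List.getElem?_eq_none (by omega)] at hb1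
      cases hb1
    rw [Nat.add_zero] at hb1
    have h2 := ih (p + 1) (by omega) (fun i hi => by
      obtain ⟨b, hb⟩ := h (i + 1) (by omega)
      refine ⟨b, ?_⟩
      rwa [show p + 1 - 1 + i = p - 1 + (i + 1) by omega])
    rw [show p + 1 + r = p + (r + 1) by ring] at h2
    refine (Rch.one ?_).trans h2
    have : min (p + 1) (w.length + 1) = p + 1 := by omega
    simp [sstep, dd, rd, mv, hb1, hb2, this]

theorem rch_down (m p : ℕ) (hp : p + m ≤ w.length + 1) :
    Rch w ((4, s, a), p, m) ((4, s, a), p + m, 0) := by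
  induction m generalizing p with
  | zero => exact Rch.refl _
  | succ m ih =>
    have h2 := ih (p + 1) (by omega)
    rw [show p + 1 + m = p + (m + 1) by ring] at h2
    refine (Rch.one ?_).trans h2
    have : min (p + 1) (w.length + 1) = p + 1 := by omega
    simp [sstep, dd, mv, this]

theorem rch_cmp (p : ℕ) : Rch w ((4, (cur, par, ok), a), p, 0)
    ((5, (cur, par, ok && decide ((rd w p).2 = some a)), a), p, 0) := by
  apply Rch.one
  simp [sstep, dd, mv]

theorem rch_up (m p r : ℕ) (hr : r ≤ p) (h : ∀ i, i < r → w[p - i - 1]? ≠ some 3) :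
    Rch w ((5, s, a), p, m) ((5, s, a), p - r, m + r) := by
  induction r generalizing p m with
  | zero => exact Rch.refl _
  | succ r ih =>
    have h0 := h 0 (by omega)
    have h2 := ih (m + 1) (p - 1) (by omega) (fun i hi => by
      have := h (i + 1) (by omega)
      rwa [show p - 1 - i - 1 = p - (i + 1) - 1 by omega])
    rw [show p - 1 - r = p - (r + 1) by omega, show m + 1 + r = m + (r + 1) by ring] at h2
    refine (Rch.one ?_).trans h2
    rw [Nat.sub_zero] at h0
    simp [sstep, dd, rd, mv, h0]

theorem rch_home (m p : ℕ) : Rch w ((6, s, a), p, m) ((7, s, a), 0, m) := by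
  induction p with
  | zero =>
    apply Rch.one
    simp [sstep, dd, rd, mv]
  | succ p ih =>
    refine (Rch.one ?_).trans ih
    simp [sstep, dd, rd, mv]

theorem rch_fwd (m p : ℕ) (hp : p + m ≤ w.length + 1) :
    Rch w ((7, s, a), p, m) ((7, s, a), p + m, 0) := by
  induction m generalizing p with
  | zero => exact Rch.refl _
  | succ m ih =>
    have h2 := ih (p + 1) (by omega)
    rw [show p + 1 + m = p + (m + 1) by ring] at h2
    refine (Rch.one ?_).trans h2
    have : min (p + 1) (w.length + 1) = p + 1 := by omega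
    simp [sstep, dd, mv, this]

end Phases

/-- The update of (cur, par) after the comparison of one column with letter `a`. -/
def upd (c : Bool × Bool) (a : Fin 4) (ok : Bool) : Bool × Bool :=
  if a = 2 then (true, xor c.2 (c.1 && ok)) else (c.1 && ok, c.2)

/-- All rows have letter `a` in column `t` (counted from one). -/
def allOk (rows : List (List (Fin 4))) (a : Fin 4) (t : ℕ) : Bool :=
  rows.all (fun R => decide (R[t - 1]? = some a))

theorem rch_rows (a : Fin 4) (t ρ : ℕ) (ht : 1 ≤ t) (htρ : t ≤ ρ) (cur par : Bool) :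
    ∀ (rows : List (List (Fin 4))) (Pre : List (Fin 4)) (ok : Bool),
    (∀ R ∈ rows, R.length = ρ ∧ ∀ b ∈ R, b ≠ 3) →
    Rch (Pre ++ rows.flatMap (fun R => 3 :: R))
      ((3, (cur, par, ok), a), Pre.length + 1, t)
      ((3, (cur, par, ok && allOk rows a t), a), (Pre ++ rows.flatMap (fun R => 3 :: R)).length + 1, t) := by
  intro rows
  induction rows with
  | nil =>
    intro Pre ok _
    simp only [List.flatMap_nil, List.append_nil, allOk, List.all_nil, Bool.and_true]
    exact Rch.refl _
  | cons R rows ih =>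
    intro Pre ok hrows
    obtain ⟨hR1, hR2⟩ := hrows R (by simp)
    have e : Pre ++ (R :: rows).flatMap (fun R => 3 :: R) =
        (Pre ++ 3 :: R) ++ rows.flatMap (fun R => 3 :: R) := by
      simp [List.flatMap_cons]
    rw [e]
    set w := (Pre ++ 3 :: R) ++ rows.flatMap (fun R => 3 :: R) with hw
    have hlen : w.length = Pre.length + (1 + ρ) + (rows.flatMap (fun R => 3 :: R)).length := by
      rw [hw, List.length_append, List.length_append, List.length_cons, hR1]; ring
    -- letters of the row
    have hlet : ∀ i, i < ρ → w[Pre.length + 1 + i]? = R[i]? := by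
      intro i hi
      rw [hw, List.getElem?_append_left (by rw [List.length_append, List.length_cons]; omega),
        List.getElem?_append_right (by omega)]
      have : Pre.length + 1 + i - Pre.length = i + 1 := by omega
      rw [this, List.getElem?_cons_succ]
    have hdol : w[Pre.length]? = some 3 := by
      rw [hw, List.getElem?_append_left (by rw [List.length_append, List.length_cons]; omega),
        List.getElem?_append_right le_rfl]
      simp
    have hRget : ∀ i, i < ρ → ∃ b, R[i]? = some b ∧ b ≠ 3 := by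
      intro i hi
      have : i < R.length := by omega
      refine ⟨R[i], List.getElem?_eq_getElem this, hR2 _ (List.getElem_mem this)⟩
    -- seek finds the separator
    have s1 : Rch w ((3, (cur, par, ok), a), Pre.length + 1, t)
        ((4, (cur, par, ok), a), Pre.length + 1, t) := by
      apply Rch.one
      simp [sstep, dd, rd, mv, hdol]
    have s2 := rch_down (w := w) (s := (cur, par, ok)) (a := a) t (Pre.length + 1) (by omega)
    have s3 := rch_cmp (w := w) (cur := cur) (par := par) (ok := ok) (a := a) (Pre.length + 1 + t)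
    have hrd : (rd w (Pre.length + 1 + t)).2 = R[t - 1]? := by
      show w[Pre.length + 1 + t - 1]? = _
      rw [show Pre.length + 1 + t - 1 = Pre.length + 1 + (t - 1) by omega, hlet (t - 1) (by omega)]
    rw [hrd] at s3
    have s4 := rch_up (w := w) (s := (cur, par, ok && decide (R[t - 1]? = some a))) (a := a) 0
      (Pre.length + 1 + t) t (by omega) (by
        intro i hi
        rw [show Pre.length + 1 + t - i - 1 = Pre.length + 1 + (t - i - 1) by omega,
          hlet _ (by omega)]
        obtain ⟨b, hb1, hb2⟩ := hRget (t - i - 1) (by omega)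
        rw [hb1]
        intro hh
        exact hb2 (Option.some.inj hh))
    rw [show Pre.length + 1 + t - t = Pre.length + 1 by omega, Nat.zero_add] at s4
    have s5 : Rch w ((5, (cur, par, ok && decide (R[t - 1]? = some a)), a), Pre.length + 1, t)
        ((3, (cur, par, ok && decide (R[t - 1]? = some a)), a), Pre.length + 1 + 1, t) := by
      apply Rch.one
      have : min (Pre.length + 1 + 1) (w.length + 1) = Pre.length + 1 + 1 := by omega
      simp [sstep, dd, rd, mv, hdol, this]
    have s6 := rch_seek (w := w) (s := (cur, par, ok && decide (R[t - 1]? = some a))) (a := a) t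
      (Pre.length + 1 + 1) ρ (by omega) (by
        intro i hi
        rw [show Pre.length + 1 + 1 - 1 + i = Pre.length + 1 + i by omega, hlet i hi]
        exact hRget i hi)
    have s7 := ih (Pre ++ 3 :: R) (ok && decide (R[t - 1]? = some a)) (fun R' hR' => hrows R' (by simp [hR']))
    have e2 : (Pre ++ 3 :: R).length + 1 = Pre.length + 1 + 1 + ρ := by
      rw [List.length_append, List.length_cons, hR1]; ring
    rw [e2, ← hw] at s7
    have e3 : (ok && decide (R[t - 1]? = some a) && allOk rows a t) = (ok && allOk (R :: rows) a t) := by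
      simp [allOk, Bool.and_assoc]
    rw [e3] at s7
    exact s1.trans (s2.trans (s3.trans (s4.trans (s5.trans (s6.trans s7)))))

/-- Processing one column. -/
theorem rch_column (R0 : List (Fin 4)) (rows : List (List (Fin 4))) (t : ℕ) (ht : 1 ≤ t)
    (htρ : t ≤ R0.length) (h0 : ∀ b ∈ R0, b ≠ 3)
    (hrows : ∀ R ∈ rows, R.length = R0.length ∧ ∀ b ∈ R, b ≠ 3) (a : Fin 4) (ha : R0[t - 1]? = some a)
    (cur par ok0 : Bool) (a0 : Fin 4) :
    Rch (R0 ++ rows.flatMap (fun R => 3 :: R)) ((1, (cur, par, ok0), a0), t, 0)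
      ((1, ((upd (cur, par) a (allOk rows a t)).1, (upd (cur, par) a (allOk rows a t)).2, true), 0),
        t + 1, 0) := by
  set w := R0 ++ rows.flatMap (fun R => 3 :: R) with hw
  have hlen : R0.length ≤ w.length := by rw [hw, List.length_append]; omega
  have hwt : ∀ i, i < R0.length → w[i]? = R0[i]? := by
    intro i hi
    rw [hw, List.getElem?_append_left hi]
  have ha3 : a ≠ 3 := by
    apply h0
    exact List.mem_of_getElem? ha
  have hrdt : (rd w t).2 = some a := by
    show w[t - 1]? = _
    rw [hwt _ (by omega), ha]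
  have s1 : Rch w ((1, (cur, par, ok0), a0), t, 0) ((2, (cur, par, true), a), t, 0) := by
    apply Rch.one
    simp [sstep, dd, hrdt, ha3, mv]
  have s2 := rch_back (w := w) (s := (cur, par, true)) (a := a) 0 t
  rw [Nat.zero_add] at s2
  have s3 := rch_back_end (w := w) (s := (cur, par, true)) (a := a) t
  have s4 := rch_seek (w := w) (s := (cur, par, true)) (a := a) t 1 R0.length le_rfl (by
    intro i hi
    rw [Nat.sub_self, Nat.zero_add, hwt i hi]
    exact ⟨R0[i], List.getElem?_eq_getElem hi, h0 _ (List.getElem_mem hi)⟩)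
  rw [Nat.add_comm 1] at s4
  have s5 := rch_rows a t R0.length ht htρ cur par rows R0 true hrows
  rw [← hw, Bool.true_and] at s5
  have s6 : Rch w ((3, (cur, par, allOk rows a t), a), w.length + 1, t)
      ((6, (cur, par, allOk rows a t), a), w.length, t) := by
    apply Rch.one
    simp [sstep, dd, rd, mv]
  have s7 := rch_home (w := w) (s := (cur, par, allOk rows a t)) (a := a) t w.length
  have s8 := rch_fwd (w := w) (s := (cur, par, allOk rows a t)) (a := a) t 0 (by omega)
  rw [Nat.zero_add] at s8
  have s9 : Rch w ((7, (cur, par, allOk rows a t), a), t, 0)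
      ((1, ((upd (cur, par) a (allOk rows a t)).1, (upd (cur, par) a (allOk rows a t)).2, true), 0),
        t + 1, 0) := by
    apply Rch.one
    have : min (t + 1) (w.length + 1) = t + 1 := by omega
    by_cases h2 : a = 2
    · simp [sstep, dd, mv, upd, h2, this]
    · simp [sstep, dd, mv, upd, h2, this]
  exact s1.trans (s2.trans (s3.trans (s4.trans (s5.trans (s6.trans (s7.trans (s8.trans s9)))))))

/-- The fold over the columns from column `t + 1` on; `x` is the rest of the first row. -/
def fold (rows : List (List (Fin 4))) : ℕ → List (Fin 4) → Bool × Bool → Bool × Bool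
  | _, [], c => c
  | t, a :: x, c => fold rows (t + 1) x (upd c a (allOk rows a (t + 1)))

theorem rch_fold (R0 : List (Fin 4)) (rows : List (List (Fin 4))) (h0 : ∀ b ∈ R0, b ≠ 3)
    (hrows : ∀ R ∈ rows, R.length = R0.length ∧ ∀ b ∈ R, b ≠ 3) :
    ∀ (x y : List (Fin 4)), R0 = y ++ x → ∀ (c : Bool × Bool) (ok0 : Bool) (a0 : Fin 4),
    ∃ (ok1 : Bool) (a1 : Fin 4),
    Rch (R0 ++ rows.flatMap (fun R => 3 :: R)) ((1, (c.1, c.2, ok0), a0), y.length + 1, 0)
      ((1, ((fold rows y.length x c).1, (fold rows y.length x c).2, ok1), a1), R0.length + 1, 0) := by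
  intro x
  induction x with
  | nil =>
    intro y hy c ok0 a0
    rw [List.append_nil] at hy
    subst hy
    exact ⟨ok0, a0, Rch.refl _⟩
  | cons a x ih =>
    intro y hy c ok0 a0
    have hlen : R0.length = y.length + (x.length + 1) := by rw [hy]; simp
    have ha : R0[y.length + 1 - 1]? = some a := by
      rw [hy, Nat.add_sub_cancel, List.getElem?_append_right le_rfl]; simp
    have s1 := rch_column R0 rows (y.length + 1) (by omega) (by omega) h0 hrows a ha c.1 c.2 ok0 a0
    obtain ⟨ok1, a1, s2⟩ := ih (y ++ [a]) (by rw [hy]; simp)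
      (upd c a (allOk rows a (y.length + 1))) true 0
    refine ⟨ok1, a1, ?_⟩
    have e : (y ++ [a]).length = y.length + 1 := by simp
    rw [e] at s2
    exact s1.trans s2

theorem acc_sink (w : List (Fin 4)) (c : PS × ℕ × ℕ) (hc : c.1.1 = 8) (m : ℕ) :
    ((sstep w)^[m] c).1.1 = 8 := by
  induction m with
  | zero => exact hc
  | succ m ih =>
    rw [Function.iterate_succ_apply']
    generalize (sstep w)^[m] c = c' at ih
    obtain ⟨⟨q, s, a⟩, p, m'⟩ := c'
    simp only at ih
    subst ih
    simp [sstep, dd]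

theorem rej_sink (w : List (Fin 4)) (c : PS × ℕ × ℕ) (hc : c.1.1 = 9) (m : ℕ) :
    ((sstep w)^[m] c).1.1 = 9 := by
  induction m with
  | zero => exact hc
  | succ m ih =>
    rw [Function.iterate_succ_apply']
    generalize (sstep w)^[m] c = c' at ih
    obtain ⟨⟨q, s, a⟩, p, m'⟩ := c'
    simp only at ih
    subst ih
    simp [sstep, dd]

/-- The language of the pushdown automaton. -/
def theLang : Set (List (Fin 4)) :=
  {w | ∃ m : ℕ, ((pdaStep del w)^[m] ((0, (true, false, true), 0), (fun _ => 0), [])).1 ∈ {q : PS | q.1 = 8}}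

theorem theLang_twoDPDA : TwoDPDA theLang :=
  ⟨PS, Unit, inferInstance, inferInstance, del, (0, (true, false, true), 0), {q | q.1 = 8},
    fun _ => Iff.rfl⟩

theorem mem_theLang (w : List (Fin 4)) :
    w ∈ theLang ↔ ∃ m, ((sstep w)^[m] ((0, (true, false, true), 0), 0, 0)).1.1 = 8 := by
  have e : (((0, (true, false, true), 0), (fun _ => 0), []) : PS × (Fin 1 → ℕ) × List Unit) =
      emb ((0, (true, false, true), 0), 0, 0) := rfl
  show (∃ m : ℕ, ((pdaStep del w)^[m] ((0, (true, false, true), 0), (fun _ => 0), [])).1 ∈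
    {q : PS | q.1 = 8}) ↔ _
  rw [e]
  simp only [iter_emb]
  rfl

/-- Membership for well-formed words. -/
theorem mem_theLang_iff (R0 : List (Fin 4)) (rows : List (List (Fin 4))) (h0 : ∀ b ∈ R0, b ≠ 3)
    (hrows : ∀ R ∈ rows, R.length = R0.length ∧ ∀ b ∈ R, b ≠ 3) :
    R0 ++ rows.flatMap (fun R => 3 :: R) ∈ theLang ↔ (fold rows 0 R0 (true, false)).2 = true := by
  set w := R0 ++ rows.flatMap (fun R => 3 :: R) with hw
  have s1 : Rch w ((0, (true, false, true), 0), 0, 0) ((1, (true, false, true), 0), 1, 0) := by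
    apply Rch.one
    simp [sstep, dd, mv]
  obtain ⟨ok1, a1, s2⟩ := rch_fold R0 rows h0 hrows R0 [] (by simp) (true, false) true 0
  rw [← hw] at s2
  simp only [List.length_nil, Nat.zero_add] at s2
  have hend : w[R0.length]? = none ∨ w[R0.length]? = some 3 := by
    cases rows with
    | nil =>
      left
      apply List.getElem?_eq_none
      rw [hw]; simp
    | cons R rows =>
      right
      rw [hw, List.getElem?_append_right le_rfl]
      simp [List.flatMap_cons]
  obtain ⟨s, hs⟩ : ∃ s, s = fold rows 0 R0 (true, false) := ⟨_, rfl⟩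
  rw [← hs] at s2 ⊢
  have s3 : Rch w ((1, (s.1, s.2, ok1), a1), R0.length + 1, 0)
      ((if s.2 then 8 else 9, (s.1, s.2, ok1), 0), R0.length + 1, 0) := by
    apply Rch.one
    have hend' : w.length ≤ R0.length ∨ w[R0.length]? = some 3 := by simpa using hend
    simp [sstep, dd, mv, rd, hend']
  obtain ⟨m₁, hm₁⟩ := s1.trans (s2.trans s3)
  rw [mem_theLang]
  constructor
  · rintro ⟨m, hm⟩
    by_contra hpar
    rw [Bool.not_eq_true] at hpar
    rw [hpar] at hm₁
    have h1 := acc_sink w _ hm m₁
    have h2 := rej_sink w _ (by rw [hm₁]; rfl :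
      ((sstep w)^[m₁] ((0, (true, false, true), 0), 0, 0)).1.1 = 9) m
    rw [← Function.iterate_add_apply] at h1 h2
    rw [Nat.add_comm m m₁, h1] at h2
    exact absurd h2 (by decide)
  · intro hpar
    rw [hpar] at hm₁
    exact ⟨m₁, by rw [hm₁]; rfl⟩

end Pool.Agent.H541R2
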