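import Mathlib

set_option autoImplicit false

namespace Pool.Agent.H541R2

/-- What a head can read: a flag for the left end, and a letter. -/
abbrev Cell (α : Type) := Bool × Option α

/-- The local transition table of a single head; `none` means that the head stops here. -/
abbrev Table (Q α : Type) := Q → Cell α → Option (Q × Fin 3)

variable {Q α : Type}

/-- `Esc τ y q i s r`: the head started in state `q` at the `i`-th letter of the segment `y` (letters are
numbered from one) leaves the segment on side `s` (`false` for the left side) in state `r`. -/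
inductive Esc (τ : Table Q α) (y : List α) : Q → ℕ → Bool → Q → Prop
  | outL (q : Q) : Esc τ y q 0 false q
  | outR (q : Q) : Esc τ y q (y.length + 1) true q
  | step (q : Q) (i : ℕ) (c : α) (q' : Q) (m : Fin 3) (s : Bool) (r : Q) :
      1 ≤ i → y[i - 1]? = some c → τ q (false, some c) = some (q', m) →
      Esc τ y q' (i + m.val - 1) s r → Esc τ y q i s r

theorem Esc.inv_zero {τ : Table Q α} {y : List α} {q : Q} {s : Bool} {r : Q}
    (h : Esc τ y q 0 s r) : s = false ∧ r = q := by
  generalize hi : (0 : ℕ) = i at h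
  cases h with
  | outL => exact ⟨rfl, rfl⟩
  | outR => omega
  | step _ _ c q' m _ _ h1 => omega

theorem Esc.inv_last {τ : Table Q α} {y : List α} {q : Q} {s : Bool} {r : Q}
    (h : Esc τ y q (y.length + 1) s r) : s = true ∧ r = q := by
  generalize hi : y.length + 1 = i at h
  cases h with
  | outL => omega
  | outR => exact ⟨rfl, rfl⟩
  | step _ _ c q' m _ _ h1 h2 =>
    subst hi
    simp at h2

/-- The behaviour of a segment: entry side, entry state, exit side, exit state. -/
def Beh (y : List α) (τ : Table Q α) (e : Bool) (q : Q) (s : Bool) (r : Q) : Prop :=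
  Esc τ y q (if e then y.length else 1) s r

/-- Composition of behaviours; the first index tells in which of the two segments we are. -/
inductive Comp (B₁ B₂ : Bool → Q → Bool → Q → Prop) : Bool → Bool → Q → Bool → Q → Prop
  | fst_out (e : Bool) (q r : Q) : B₁ e q false r → Comp B₁ B₂ false e q false r
  | fst_in (e : Bool) (q q' : Q) (s : Bool) (r : Q) : B₁ e q true q' →
      Comp B₁ B₂ true false q' s r → Comp B₁ B₂ false e q s r
  | snd_out (e : Bool) (q r : Q) : B₂ e q true r → Comp B₁ B₂ true e q true r
  | snd_in (e : Bool) (q q' : Q) (s : Bool) (r : Q) : B₂ e q false q' →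
      Comp B₁ B₂ false true q' s r → Comp B₁ B₂ true e q s r

theorem Esc.lift_left {τ : Table Q α} {y₁ : List α} (y₂ : List α) {q : Q} {i : ℕ} {s₁ : Bool} {q₁ : Q}
    (h : Esc τ y₁ q i s₁ q₁) : ∀ (s : Bool) (r : Q),
    Esc τ (y₁ ++ y₂) q₁ (if s₁ then y₁.length + 1 else 0) s r → Esc τ (y₁ ++ y₂) q i s r := by
  induction h with
  | outL q => intro s r h; simpa using h
  | outR q => intro s r h; simpa using h
  | step q i c q' m s₁ r₁ h1 h2 h3 _ ih =>
    intro s r h
    refine Esc.step q i c q' m s r h1 ?_ h3 (ih s r h)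
    rw [List.getElem?_append_left]
    · exact h2
    · by_contra hlt
      rw [List.getElem?_eq_none (by omega)] at h2
      cases h2

theorem Esc.lift_right {τ : Table Q α} (y₁ : List α) {y₂ : List α} {q : Q} {i : ℕ} {s₁ : Bool} {q₁ : Q}
    (h : Esc τ y₂ q i s₁ q₁) : ∀ (s : Bool) (r : Q),
    Esc τ (y₁ ++ y₂) q₁ (y₁.length + (if s₁ then y₂.length + 1 else 0)) s r →
      Esc τ (y₁ ++ y₂) q (y₁.length + i) s r := by
  induction h with
  | outL q => intro s r h; simpa using h
  | outR q => intro s r h; simpa using h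
  | step q i c q' m s₁ r₁ h1 h2 h3 _ ih =>
    intro s r h
    refine Esc.step q (y₁.length + i) c q' m s r (by omega) ?_ h3 ?_
    · rw [List.getElem?_append_right (by omega)]
      rw [← h2]; congr 1; omega
    · have := ih s r h
      have e : y₁.length + (i + m.val - 1) = y₁.length + i + m.val - 1 := by omega
      rwa [e] at this

theorem Esc.decomp {τ : Table Q α} {y₁ y₂ : List α} (hy₁ : 1 ≤ y₁.length) (hy₂ : 1 ≤ y₂.length)
    {q : Q} {i : ℕ} {s : Bool} {r : Q}
    (h : Esc τ (y₁ ++ y₂) q i s r) :
    (1 ≤ i → i ≤ y₁.length → ∃ s₁ q₁, Esc τ y₁ q i s₁ q₁ ∧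
      ((s₁ = false ∧ s = false ∧ r = q₁) ∨ (s₁ = true ∧ Comp (Beh y₁ τ) (Beh y₂ τ) true false q₁ s r))) ∧
    (y₁.length + 1 ≤ i → i ≤ y₁.length + y₂.length → ∃ s₂ q₂, Esc τ y₂ q (i - y₁.length) s₂ q₂ ∧
      ((s₂ = true ∧ s = true ∧ r = q₂) ∨ (s₂ = false ∧ Comp (Beh y₁ τ) (Beh y₂ τ) false true q₂ s r))) := by
  induction h with
  | outL q => exact ⟨fun h _ => by omega, fun h _ => by omega⟩
  | outR q =>
    rw [List.length_append]
    exact ⟨fun _ _ => by omega, fun _ _ => by omega⟩
  | step q i c q' m s r h1 h2 h3 h4 ih =>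
    have hm := m.isLt
    constructor
    · intro _ hi
      rw [List.getElem?_append_left (by omega)] at h2
      by_cases h0 : i + m.val - 1 = 0
      · rw [h0] at h4
        obtain ⟨rfl, rfl⟩ := h4.inv_zero
        refine ⟨false, r, Esc.step q i c r m false r h1 h2 h3 ?_, Or.inl ⟨rfl, rfl, rfl⟩⟩
        rw [h0]; exact Esc.outL r
      · by_cases hl : i + m.val - 1 ≤ y₁.length
        · obtain ⟨s₁, q₁, he, hc⟩ := ih.1 (by omega) hl
          exact ⟨s₁, q₁, Esc.step q i c q' m s₁ q₁ h1 h2 h3 he, hc⟩
        · have hl' : i + m.val - 1 = y₁.length + 1 := by omega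
          obtain ⟨s₂, q₂, he, hc⟩ := ih.2 (by omega) (by omega)
          have hone : i + m.val - 1 - y₁.length = 1 := by omega
          rw [hone] at he
          refine ⟨true, q', Esc.step q i c q' m true q' h1 h2 h3 ?_, Or.inr ⟨rfl, ?_⟩⟩
          · rw [hl']; exact Esc.outR q'
          · rcases hc with ⟨rfl, rfl, rfl⟩ | ⟨rfl, hc⟩
            · exact Comp.snd_out false q' _ (by simpa [Beh] using he)
            · exact Comp.snd_in false q' q₂ s r (by simpa [Beh] using he) hc
    · intro hi1 hi2
      rw [List.getElem?_append_right (by omega)] at h2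
      have h2' : y₂[i - y₁.length - 1]? = some c := by rw [← h2]; congr 1; omega
      by_cases h0 : i + m.val - 1 = y₁.length + y₂.length + 1
      · have h0' : i + m.val - 1 = (y₁ ++ y₂).length + 1 := by rw [List.length_append]; exact h0
        rw [h0'] at h4
        obtain ⟨rfl, rfl⟩ := h4.inv_last
        refine ⟨true, r, Esc.step q _ c r m true r (by omega) h2' h3 ?_, Or.inl ⟨rfl, rfl, rfl⟩⟩
        have : i - y₁.length + m.val - 1 = y₂.length + 1 := by omega
        rw [this]; exact Esc.outR r
      · by_cases hl : y₁.length + 1 ≤ i + m.val - 1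
        · obtain ⟨s₂, q₂, he, hc⟩ := ih.2 hl (by omega)
          refine ⟨s₂, q₂, Esc.step q _ c q' m s₂ q₂ (by omega) h2' h3 ?_, hc⟩
          have : i - y₁.length + m.val - 1 = i + m.val - 1 - y₁.length := by omega
          rw [this]; exact he
        · have hl' : i + m.val - 1 = y₁.length := by omega
          obtain ⟨s₁, q₁, he, hc⟩ := ih.1 (by omega) (by omega)
          rw [hl'] at he
          refine ⟨false, q', Esc.step q _ c q' m false q' (by omega) h2' h3 ?_, Or.inr ⟨rfl, ?_⟩⟩
          · have : i - y₁.length + m.val - 1 = 0 := by omega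
            rw [this]; exact Esc.outL q'
          · rcases hc with ⟨rfl, rfl, rfl⟩ | ⟨rfl, hc⟩
            · exact Comp.fst_out true q' _ (by simpa [Beh] using he)
            · exact Comp.fst_in true q' q₁ s r (by simpa [Beh] using he) hc

theorem Comp.to_esc {τ : Table Q α} {y₁ y₂ : List α}
    {w e : Bool} {q : Q} {s : Bool} {r : Q} (h : Comp (Beh y₁ τ) (Beh y₂ τ) w e q s r) :
    Esc τ (y₁ ++ y₂) q (if w then y₁.length + (if e then y₂.length else 1) else
      (if e then y₁.length else 1)) s r := by
  induction h with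
  | fst_out e q r h =>
    have := Esc.lift_left y₂ h false r (by simpa using Esc.outL r)
    simpa using this
  | fst_in e q q' s r h _ ih =>
    have := Esc.lift_left y₂ h s r (by simpa using ih)
    simpa using this
  | snd_out e q r h =>
    have := Esc.lift_right y₁ h true r (by
      have := Esc.outR (τ := τ) (y := y₁ ++ y₂) r
      rw [List.length_append] at this
      simpa [add_assoc] using this)
    simpa using this
  | snd_in e q q' s r h _ ih =>
    have := Esc.lift_right y₁ h s r (by simpa using ih)
    simpa using this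

theorem beh_append {y₁ y₂ : List α} (hy₁ : 1 ≤ y₁.length) (hy₂ : 1 ≤ y₂.length) (τ : Table Q α)
    (e : Bool) (q : Q) (s : Bool) (r : Q) :
    Beh (y₁ ++ y₂) τ e q s r ↔ Comp (Beh y₁ τ) (Beh y₂ τ) e e q s r := by
  constructor
  · intro h
    cases e with
    | false =>
      unfold Beh at h
      simp only [Bool.false_eq_true, if_false] at h
      obtain ⟨s₁, q₁, he, hc⟩ := (h.decomp hy₁ hy₂).1 le_rfl hy₁
      rcases hc with ⟨rfl, rfl, rfl⟩ | ⟨rfl, hc⟩
      · exact Comp.fst_out false q _ (by simpa [Beh] using he)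
      · exact Comp.fst_in false q q₁ s r (by simpa [Beh] using he) hc
    | true =>
      unfold Beh at h
      simp only [if_true, List.length_append] at h
      obtain ⟨s₁, q₁, he, hc⟩ := (h.decomp hy₁ hy₂).2 (by omega) le_rfl
      have hsub : y₁.length + y₂.length - y₁.length = y₂.length := by omega
      rw [hsub] at he
      rcases hc with ⟨rfl, rfl, rfl⟩ | ⟨rfl, hc⟩
      · exact Comp.snd_out true q _ (by simpa [Beh] using he)
      · exact Comp.snd_in true q q₁ s r (by simpa [Beh] using he) hc
  · intro h
    have := h.to_esc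
    unfold Beh
    cases e <;> simpa using this

theorem beh_congr {y₁ y₂ z₁ z₂ : List α} (hy₁ : 1 ≤ y₁.length) (hy₂ : 1 ≤ y₂.length)
    (hz₁ : 1 ≤ z₁.length) (hz₂ : 1 ≤ z₂.length)
    (h₁ : (Beh y₁ : Table Q α → _) = Beh z₁) (h₂ : (Beh y₂ : Table Q α → _) = Beh z₂) :
    (Beh (y₁ ++ y₂) : Table Q α → _) = Beh (z₁ ++ z₂) := by
  funext τ e q s r
  rw [eq_iff_iff, beh_append hy₁ hy₂, beh_append hz₁ hz₂, h₁, h₂]

/-- `m` copies of a word. -/
def rep (m : ℕ) (v : List α) : List α := (List.replicate m v).flatten

theorem rep_zero (v : List α) : rep 0 v = [] := rfl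

theorem rep_succ (m : ℕ) (v : List α) : rep (m + 1) v = v ++ rep m v := by
  simp [rep, List.replicate_succ]

theorem rep_succ' (m : ℕ) (v : List α) : rep (m + 1) v = rep m v ++ v := by
  simp [rep, List.replicate_succ']

theorem rep_add (m n : ℕ) (v : List α) : rep (m + n) v = rep m v ++ rep n v := by
  induction m with
  | zero => simp [rep_zero]
  | succ m ih => rw [show m + 1 + n = (m + n) + 1 by omega, rep_succ, ih, rep_succ, List.append_assoc]

theorem rep_length (m : ℕ) (v : List α) : (rep m v).length = m * v.length := by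
  simp [rep]

theorem rep_one (v : List α) : rep 1 v = v := by simp [rep]

theorem rep_mul (m n : ℕ) (v : List α) : rep (m * n) v = rep m (rep n v) := by
  induction m with
  | zero => simp [rep]
  | succ m ih => rw [Nat.succ_mul, Nat.add_comm, rep_add, ih, rep_succ]

instance behFinite [Finite Q] [Finite α] :
    Finite (Table Q α → Bool → Q → Bool → Q → Prop) := by
  classical
  infer_instance

/-- Some power of a nonempty word has idempotent behaviour. -/
theorem exists_idem [Finite Q] [Finite α] (t : List α) (ht : 1 ≤ t.length) :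
    ∃ j : ℕ, (Beh (rep (j + 1) t ++ rep (j + 1) t) : Table Q α → _) = Beh (rep (j + 1) t) := by
  classical
  obtain ⟨i, i', hne, hf⟩ := Finite.exists_ne_map_eq_of_infinite
    (fun m : ℕ => (Beh (rep (m + 1) t) : Table Q α → Bool → Q → Bool → Q → Prop))
  wlog hlt : i < i' generalizing i i'
  · exact this i' i hne.symm hf.symm (by omega)
  obtain ⟨p, hp, rfl⟩ : ∃ p, 1 ≤ p ∧ i' = i + p := ⟨i' - i, by omega, by omega⟩
  have hlen : ∀ m, 1 ≤ (rep (m + 1) t).length := by
    intro m; rw [rep_length]; nlinarith
  -- shift by `p` is harmless above `i`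
  have hshift : ∀ d, (Beh (rep (i + 1 + d) t) : Table Q α → _) = Beh (rep (i + 1 + d + p) t) := by
    intro d
    cases d with
    | zero => simpa [show i + p + 1 = i + 1 + 0 + p by omega] using hf
    | succ d =>
      have h1 : rep (i + 1 + (d + 1)) t = rep (i + 1) t ++ rep (d + 1) t := rep_add _ _ _
      have h2 : rep (i + 1 + (d + 1) + p) t = rep (i + p + 1) t ++ rep (d + 1) t := by
        rw [← rep_add]; congr 1; omega
      rw [h1, h2]
      exact beh_congr (hlen i) (hlen d) (hlen (i + p)) (hlen d) hf rfl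
  have hmult : ∀ c d, (Beh (rep (i + 1 + d) t) : Table Q α → _) = Beh (rep (i + 1 + d + c * p) t) := by
    intro c
    induction c with
    | zero => intro d; simp
    | succ c ih =>
      intro d
      have h3 := hshift (d + c * p)
      have h4 : i + 1 + (d + c * p) = i + 1 + d + c * p := by ring
      have h5 : i + 1 + d + c * p + p = i + 1 + d + (c + 1) * p := by ring
      rw [h4, h5] at h3
      rw [ih d, h3]
  -- take `(i + 1) * p` copies
  have hj : ∃ j, j + 1 = (i + 1) * p := ⟨(i + 1) * p - 1, by
    have : 1 ≤ (i + 1) * p := Nat.one_le_iff_ne_zero.mpr (by positivity)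
    omega⟩
  obtain ⟨j, hj⟩ := hj
  refine ⟨j, ?_⟩
  rw [← rep_add]
  have hge : i + 1 ≤ j + 1 := by rw [hj]; nlinarith
  obtain ⟨d, hd⟩ := Nat.exists_eq_add_of_le hge
  have := hmult (i + 1) d
  rw [← hj] at this
  rw [show j + 1 + (j + 1) = i + 1 + d + (j + 1) by omega, ← this, ← hd]

/-- Concatenations of blocks with the same idempotent behaviour have that behaviour. -/
theorem beh_flatten (v : List α) (hv : 1 ≤ v.length)
    (hid : (Beh (v ++ v) : Table Q α → _) = Beh v)
    (L : List (List α)) (hL : L ≠ []) (hall : ∀ y ∈ L, 1 ≤ y.length ∧ (Beh y : Table Q α → _) = Beh v) :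
    (Beh L.flatten : Table Q α → _) = Beh v := by
  induction L with
  | nil => exact absurd rfl hL
  | cons y L ih =>
    obtain ⟨hy1, hy2⟩ := hall y (by simp)
    by_cases hL' : L = []
    · subst hL'; simpa using hy2
    · have h1 := ih hL' (fun z hz => hall z (by simp [hz]))
      rw [List.flatten_cons, ← hid]
      refine beh_congr hy1 ?_ hv hv hy2 h1
      obtain ⟨z, hz⟩ := List.exists_mem_of_ne_nil L hL'
      have h2 := (hall z (by simp [hz])).1
      have h3 : z.length ≤ L.flatten.length := (List.sublist_flatten_of_mem hz).length_le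
      omega

end Pool.Agent.H541R2
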