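import Pool.Agent.H541R2.Words

set_option autoImplicit false

namespace Pool.Agent.H541R2

open Finset

variable {k : ℕ} {Q St : Type}

/-- Cylinder intersections. -/
def IsCyl {g N : ℕ} (S : Set (Fin g → Fin N → Bool)) : Prop :=
  ∃ D : Fin g → Set (Fin g → Fin N → Bool),
    (∀ i b b', (∀ j, j ≠ i → b j = b' j) → b ∈ D i → b' ∈ D i) ∧ ∀ b, b ∈ S ↔ ∀ i, b ∈ D i

theorem isCyl_univ {g N : ℕ} : IsCyl (Set.univ : Set (Fin g → Fin N → Bool)) :=
  ⟨fun _ => Set.univ, by simp, by simp⟩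

theorem IsCyl.inter {g N : ℕ} {S : Set (Fin g → Fin N → Bool)} (hS : IsCyl S) (i₀ : Fin g)
    (D₀ : Set (Fin g → Fin N → Bool))
    (h₀ : ∀ b b', (∀ j, j ≠ i₀ → b j = b' j) → b ∈ D₀ → b' ∈ D₀) : IsCyl (S ∩ D₀) := by
  classical
  obtain ⟨D, h1, h2⟩ := hS
  refine ⟨fun i => if i = i₀ then D i ∩ D₀ else D i, ?_, ?_⟩
  · intro i b b' hb
    by_cases hi : i = i₀
    · subst hi
      simp only [if_true]
      rintro ⟨a1, a2⟩
      exact ⟨h1 i b b' hb a1, h₀ b b' hb a2⟩
    · simp only [hi, if_false]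
      exact h1 i b b' hb
  · intro b
    constructor
    · rintro ⟨a1, a2⟩ i
      have := (h2 b).mp a1 i
      by_cases hi : i = i₀
      · subst hi; simp only [if_true]; exact ⟨this, a2⟩
      · simp only [hi, if_false]; exact this
    · intro h
      refine ⟨(h2 b).mpr (fun i => ?_), ?_⟩
      · have := h i
        by_cases hi : i = i₀
        · subst hi; simp only [if_true] at this; exact this.1
        · simp only [hi, if_false] at this; exact this
      · have := h i₀
        simp only [if_true] at this; exact this.2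

open Classical in
theorem cyl_card {g N : ℕ} {S : Set (Fin (g + 1) → Fin N → Bool)} (hS : IsCyl S) (σ : ℝ)
    (hσ : |σ| = 1) (h : ∀ b ∈ S, gsign Finset.univ b = σ) :
    ((Finset.univ.filter (fun b => b ∈ S)).card : ℝ) ≤ (2 ^ N : ℝ) ^ (g + 1) * (mu g) ^ N := by
  obtain ⟨D, h1, h2⟩ := hS
  have key := gip_disc g N Finset.univ (fun i b => if b ∈ D i then (1 : ℝ) else 0)
    (by intro i x; split_ifs <;> simp)
    (by
      intro i x y hxy
      have : x ∈ D i ↔ y ∈ D i := ⟨h1 i x y hxy, h1 i y x (fun j hj => (hxy j hj).symm)⟩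
      by_cases hx : x ∈ D i
      · rw [if_pos hx, if_pos (this.mp hx)]
      · rw [if_neg hx, if_neg (fun hy => hx (this.mpr hy))])
  have e : ∑ x : Fin (g + 1) → (Fin N → Bool), gsign Finset.univ x *
      ∏ i, (if x ∈ D i then (1 : ℝ) else 0) = σ * ((Finset.univ.filter (fun b => b ∈ S)).card : ℝ) := by
    rw [Finset.card_filter, Nat.cast_sum, Finset.mul_sum]
    apply Finset.sum_congr rfl
    intro x _
    by_cases hx : x ∈ S
    · have : ∀ i, x ∈ D i := (h2 x).mp hx
      rw [if_pos hx, h x hx]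
      simp [this]
    · rw [if_neg hx]
      have : ∃ i, x ∉ D i := by
        by_contra hh
        push Not at hh
        exact hx ((h2 x).mpr hh)
      obtain ⟨i, hi⟩ := this
      have : ∏ i, (if x ∈ D i then (1 : ℝ) else 0) = 0 :=
        Finset.prod_eq_zero (Finset.mem_univ i) (by simp [hi])
      rw [this]; simp
  rw [e, abs_mul, hσ, one_mul, Nat.abs_cast] at key
  simpa using key

/-- Acceptance within `R` phases. -/
def AccIn (C : Code Q) {N : ℕ} (M : Mach (Fin 4) k Q St) (K : Finset (Cfg k Q St)) :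
    ℕ → Cfg k Q St → (Fin (k + 1) → Fin N → Bool) → Prop
  | 0, c, _ => c.q ∈ M.F
  | (R + 1), c, b => ∃ d ∈ K, (∃ T, Ph M (C.W b) T N c d) ∧ AccIn C M K R d b

open Classical in
theorem accIn_card (C : Code Q) {N : ℕ} (hN : 1 ≤ N) (M : Mach (Fin 4) k Q St)
    (K : Finset (Cfg k Q St)) (σ : ℝ) (hσ : |σ| = 1) : ∀ (R : ℕ) (c : Cfg k Q St)
    (S : Set (Fin (k + 1) → Fin N → Bool)), IsCyl S →
    (∀ b ∈ S, AccIn C M K R c b → gsign Finset.univ b = σ) →
    ((Finset.univ.filter (fun b => b ∈ S ∧ AccIn C M K R c b)).card : ℝ) ≤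
      (K.card : ℝ) ^ R * ((2 ^ N : ℝ) ^ (k + 1) * (mu k) ^ N) := by
  intro R
  induction R with
  | zero =>
    intro c S hS hb
    rw [pow_zero, one_mul]
    by_cases hc : c.q ∈ M.F
    · have e : (Finset.univ.filter (fun b => b ∈ S ∧ AccIn C M K 0 c b)) =
          Finset.univ.filter (fun b => b ∈ S) := by
        ext b; simp [AccIn, hc]
      rw [e]
      exact cyl_card hS σ hσ (fun b hbS => hb b hbS hc)
    · have e : (Finset.univ.filter (fun b => b ∈ S ∧ AccIn C M K 0 c b)) = ∅ := by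
        ext b; simp [AccIn, hc]
      rw [e]
      have := mu_nonneg k
      simp only [Finset.card_empty, Nat.cast_zero]
      positivity
  | succ R ih =>
    intro c S hS hb
    obtain ⟨S', hS'⟩ : ∃ S' : Cfg k Q St → Set (Fin (k + 1) → Fin N → Bool),
        ∀ d, S' d = S ∩ {b | ∃ T, Ph M (C.W b) T N c d} := ⟨_, fun _ => rfl⟩
    obtain ⟨G, hG⟩ : ∃ G : Cfg k Q St → Finset (Fin (k + 1) → Fin N → Bool),
        ∀ d, G d = Finset.univ.filter (fun b => b ∈ S' d ∧ AccIn C M K R d b) := ⟨_, fun _ => rfl⟩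
    have hsub : (Finset.univ.filter (fun b => b ∈ S ∧ AccIn C M K (R + 1) c b)) ⊆ K.biUnion G := by
      intro b hb'
      rw [Finset.mem_filter] at hb'
      obtain ⟨_, hbS, d, hd, hT, hacc⟩ := hb'
      rw [Finset.mem_biUnion]
      refine ⟨d, hd, ?_⟩
      rw [hG, Finset.mem_filter]
      refine ⟨Finset.mem_univ _, ?_, hacc⟩
      rw [hS']
      exact ⟨hbS, hT⟩
    have h1 := (Finset.card_le_card hsub).trans Finset.card_biUnion_le
    have h2 : ∀ d ∈ K, ((G d).card : ℝ) ≤
          (K.card : ℝ) ^ R * ((2 ^ N : ℝ) ^ (k + 1) * (mu k) ^ N) := by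
      intro d hd
      rw [hG]
      refine ih d (S' d) ?_ ?_
      · rw [hS']
        apply hS.inter (C.star N c)
        intro b b' hbb hT
        exact phase_indep C hN M c d b b' hbb hT
      · intro b hbS hacc
        rw [hS'] at hbS
        exact hb b hbS.1 ⟨d, hd, hbS.2, hacc⟩
    have h3 : ((Finset.univ.filter (fun b => b ∈ S ∧ AccIn C M K (R + 1) c b)).card : ℝ) ≤
        ∑ d ∈ K, ((G d).card : ℝ) := by
      rw [← Nat.cast_sum]
      exact Nat.cast_le.mpr h1
    refine h3.trans ((Finset.sum_le_sum h2).trans (le_of_eq ?_))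
    rw [Finset.sum_const, nsmul_eq_mul]; ring

open Classical in
theorem accIn_card_univ (C : Code Q) {N : ℕ} (hN : 1 ≤ N) (M : Mach (Fin 4) k Q St)
    (K : Finset (Cfg k Q St)) (σ : ℝ) (hσ : |σ| = 1) (R : ℕ) (c : Cfg k Q St)
    (hb : ∀ b : Fin (k + 1) → Fin N → Bool, AccIn C M K R c b → gsign Finset.univ b = σ)
    (G : Finset (Fin (k + 1) → Fin N → Bool)) (hG : ∀ b ∈ G, AccIn C M K R c b) :
    (G.card : ℝ) ≤ (K.card : ℝ) ^ R * ((2 ^ N : ℝ) ^ (k + 1) * (mu k) ^ N) := by
  obtain ⟨S, hS⟩ : ∃ S : Set (Fin (k + 1) → Fin N → Bool), S = Set.univ := ⟨_, rfl⟩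
  refine le_trans (Nat.cast_le.mpr (Finset.card_le_card ?_))
    (accIn_card C hN M K σ hσ R c S (by rw [hS]; exact isCyl_univ) (fun b _ => hb b))
  intro b hbG
  rw [Finset.mem_filter]
  exact ⟨Finset.mem_univ _, by rw [hS]; trivial, hG b hbG⟩

section Runs

variable {α : Type} {M : Mach α k Q St} {w : List α}

theorem conf_succ (t : ℕ) : M.conf w (t + 1) = M.step w (M.conf w t) := by
  unfold Mach.conf
  rw [Function.iterate_succ_apply']

theorem Solo.iterate {h : Fin k} : ∀ (T : ℕ) (c d : Cfg k Q St), Solo M w h T c d →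
    d = (M.step w)^[T] c ∧ ∀ t < T, ((M.step w)^[t] c).q ∉ M.F := by
  intro T
  induction T with
  | zero => intro c d h0; exact ⟨h0, by intro t ht; omega⟩
  | succ T ih =>
    rintro c d ⟨h1, _, h3⟩
    obtain ⟨h4, h5⟩ := ih _ _ h3
    refine ⟨by rw [h4, Function.iterate_succ_apply], ?_⟩
    intro t ht
    cases t with
    | zero => exact h1
    | succ t => rw [Function.iterate_succ_apply]; exact h5 t (by omega)

theorem Ph.iterate {T I : ℕ} {c d : Cfg k Q St} (hT : Ph M w T I c d) :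
    d = (M.step w)^[T] c ∧ ∀ t < T, ((M.step w)^[t] c).q ∉ M.F := by
  induction hT with
  | stop => exact ⟨rfl, by intro t ht; omega⟩
  | single T I c d h1 _ ih =>
    obtain ⟨h4, h5⟩ := ih
    refine ⟨by rw [h4, Function.iterate_succ_apply], ?_⟩
    intro t ht
    cases t with
    | zero => exact h1
    | succ t => rw [Function.iterate_succ_apply]; exact h5 t (by omega)
  | solo T₁ T I h c e d _ h1 _ _ ih =>
    obtain ⟨h4, h5⟩ := ih
    obtain ⟨h6, h7⟩ := Solo.iterate T₁ c e h1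
    refine ⟨by rw [h4, h6, Nat.add_comm, Function.iterate_add_apply], ?_⟩
    intro t ht
    by_cases h8 : t < T₁
    · exact h7 t h8
    · have := h5 (t - T₁) (by omega)
      rw [h6, ← Function.iterate_add_apply, show t - T₁ + T₁ = t by omega] at this
      exact this

theorem Ph.mono {T I : ℕ} {c d : Cfg k Q St} (hT : Ph M w T I c d) (hd : d.q ∈ M.F) :
    Ph M w T (I + 1) c d := by
  induction hT with
  | stop _ _ _ => exact Ph.stop _ _ (Or.inr hd)
  | single T I c d h1 _ ih => exact Ph.single _ _ _ _ h1 (ih hd)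
  | solo T₁ T I h c e d h0 h1 h2 _ ih => exact Ph.solo _ _ _ h _ _ _ h0 h1 h2 (ih hd)

theorem Ph.split {T a b : ℕ} {c d : Cfg k Q St} (hT : Ph M w T (a + b) c d) :
    ∃ T₁ T₂ e, Ph M w T₁ a c e ∧ Ph M w T₂ b e d := by
  induction a generalizing T c with
  | zero =>
    rw [Nat.zero_add] at hT
    exact ⟨0, T, c, Ph.stop _ _ (Or.inl rfl), hT⟩
  | succ a ih =>
    rw [show a + 1 + b = a + b + 1 by ring] at hT
    cases hT with
    | stop _ _ h1 =>
      rcases h1 with h1 | h1
      · omega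
      · exact ⟨0, 0, _, Ph.stop _ _ (Or.inr h1), Ph.stop _ _ (Or.inr h1)⟩
    | single T _ _ _ h1 h2 =>
      obtain ⟨T₁, T₂, e, h3, h4⟩ := ih h2
      exact ⟨_, T₂, e, Ph.single _ _ _ _ h1 h3, h4⟩
    | solo T₁ T _ h _ e _ h0 h1 h2 h3 =>
      obtain ⟨T₁', T₂, e', h4, h5⟩ := ih h3
      exact ⟨_, T₂, e', Ph.solo _ _ _ h _ _ _ h0 h1 h2 h4, h5⟩

/-- Following head `h` from time `s` up to the first stop. -/
theorem exists_solo {T₀ : ℕ}
    (hmin : ∀ t < T₀, (M.conf w t).q ∉ M.F) (h : Fin k) : ∀ m s, s + m = T₀ →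
    ∃ T, s + T ≤ T₀ ∧ Solo M w h T (M.conf w s) (M.conf w (s + T)) ∧
      (s + T = T₀ ∨ Busy h (M.conf w (s + T)) (M.conf w (s + T + 1))) := by
  intro m
  induction m with
  | zero => intro s hs; exact ⟨0, by omega, rfl, Or.inl (by omega)⟩
  | succ m ih =>
    intro s hs
    by_cases hb : Busy h (M.conf w s) (M.conf w (s + 1))
    · exact ⟨0, by omega, rfl, Or.inr hb⟩
    · obtain ⟨T, h1, h2, h3⟩ := ih (s + 1) (by omega)
      refine ⟨T + 1, by omega, ⟨hmin s (by omega), by rw [← conf_succ]; exact hb, ?_⟩, ?_⟩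
      · rw [← conf_succ, show s + (T + 1) = s + 1 + T by ring]; exact h2
      · rw [show s + (T + 1) = s + 1 + T by ring]; exact h3

/-- From a splitting into pieces to maximal pieces. -/
theorem ph_of_pieces {T T₀ I : ℕ} (hT₀ : (M.conf w T₀).q ∈ M.F)
    (hmin : ∀ t < T₀, (M.conf w t).q ∉ M.F) (hle : T₀ ≤ T) (hP : M.Pieces w T I) :
    ∃ T', Ph M w T' I (M.conf w 0) (M.conf w T₀) := by
  obtain ⟨t, ht0, htI, htj⟩ := hP
  have key : ∀ m j, j + m = I → ∀ s, t j ≤ s → s ≤ T₀ →
      ∃ T', Ph M w T' m (M.conf w s) (M.conf w T₀) := by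
    intro m
    induction m with
    | zero =>
      intro j hj s h1 h2
      have : j = I := by omega
      rw [this, htI] at h1
      have : s = T₀ := by omega
      rw [this]
      exact ⟨0, Ph.stop _ _ (Or.inl rfl)⟩
    | succ m ih =>
      intro j hj s h1 h2
      obtain ⟨h3, h4⟩ := htj j (by omega)
      by_cases hsT : s = T₀
      · rw [hsT]
        exact ⟨0, Ph.stop _ _ (Or.inr hT₀)⟩
      by_cases hs : t (j + 1) ≤ s
      · obtain ⟨T', hT'⟩ := ih (j + 1) (by omega) s hs h2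
        exact ⟨T', hT'.mono hT₀⟩
      · rcases h4 with h4 | ⟨h, h4⟩
        · have : s = t j := by omega
          obtain ⟨T', hT'⟩ := ih (j + 1) (by omega) (s + 1) (by omega) (by omega)
          rw [conf_succ] at hT'
          exact ⟨T' + 1, Ph.single _ _ _ _ (hmin s (by omega)) hT'⟩
        · obtain ⟨T₁, a1, a2, a3⟩ := exists_solo (w := w) hmin h (T₀ - s) s (by omega)
          rcases a3 with a3 | a3
          · rw [a3] at a2
            refine ⟨T₁ + 0, Ph.solo _ _ _ h _ _ _ (hmin s (by omega)) a2 (Or.inl hT₀)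
              (Ph.stop _ _ (Or.inr hT₀))⟩
          · have : t (j + 1) ≤ s + T₁ := by
              by_contra hlt
              exact h4 (s + T₁) (by omega) (by omega) a3
            obtain ⟨T', hT'⟩ := ih (j + 1) (by omega) (s + T₁) this a1
            rw [conf_succ] at a3
            exact ⟨T₁ + T', Ph.solo _ _ _ h _ _ _ (hmin s (by omega)) a2 (Or.inr a3) hT'⟩
  exact key I 0 (by omega) 0 (by omega) (by omega)

end Runs

/-- From maximal pieces to phases. -/
theorem accIn_of_ph (C : Code Q) {N : ℕ} {M : Mach (Fin 4) k Q St}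
    {K : Finset (Cfg k Q St)} {b : Fin (k + 1) → Fin N → Bool}
    (hK : ∀ t, (∀ t' < t, (M.conf (C.W b) t').q ∉ M.F) → M.conf (C.W b) t ∈ K)
    {d : Cfg k Q St} (hd : d.q ∈ M.F) :
    ∀ R t T, (∀ t' < t, (M.conf (C.W b) t').q ∉ M.F) →
      Ph M (C.W b) T (N * R) (M.conf (C.W b) t) d → AccIn C M K R (M.conf (C.W b) t) b := by
  intro R
  induction R with
  | zero =>
    intro t T _ hT
    rw [Nat.mul_zero] at hT
    cases hT with
    | stop _ _ _ => exact hd
  | succ R ih =>
    intro t T ht hT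
    rw [Nat.mul_succ, Nat.add_comm (N * R) N] at hT
    obtain ⟨T₁, T₂, e, h1, h2⟩ := hT.split
    obtain ⟨h3, h4⟩ := h1.iterate
    have he : e = M.conf (C.W b) (t + T₁) := by
      rw [h3]
      unfold Mach.conf
      rw [Nat.add_comm t T₁, Function.iterate_add_apply]
    have ht' : ∀ t' < t + T₁, (M.conf (C.W b) t').q ∉ M.F := by
      intro t' ht'
      by_cases h5 : t' < t
      · exact ht t' h5
      · have := h4 (t' - t) (by omega)
        unfold Mach.conf at this ⊢
        rw [← Function.iterate_add_apply, show t' - t + t = t' by omega] at this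
        exact this
    subst he
    exact ⟨_, hK _ ht', ⟨T₁, h1⟩, ih _ _ ht' h2⟩

/-- From the phases to the real run. -/
theorem run_of_accIn (C : Code Q) {N : ℕ} {M : Mach (Fin 4) k Q St}
    {K : Finset (Cfg k Q St)} {b : Fin (k + 1) → Fin N → Bool} :
    ∀ R t, AccIn C M K R (M.conf (C.W b) t) b → ∃ t', (M.conf (C.W b) t').q ∈ M.F := by
  intro R
  induction R with
  | zero => intro t h0; exact ⟨t, h0⟩
  | succ R ih =>
    rintro t ⟨d, _, ⟨T, hT⟩, hacc⟩
    have hd : d = M.conf (C.W b) (t + T) := by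
      rw [hT.iterate.1]
      unfold Mach.conf
      rw [Nat.add_comm t T, Function.iterate_add_apply]
    rw [hd] at hacc
    exact ih _ hacc

end Pool.Agent.H541R2
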