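import Mathlib

set_option autoImplicit false

namespace Pool.Agent.H541R2

open Finset

/-- The sign of the generalised inner product of the rows of `x`, restricted to the columns in `J`. -/
noncomputable def gsign {g N : ℕ} (J : Finset (Fin N)) (x : Fin g → (Fin N → Bool)) : ℝ :=
  ∏ j ∈ J, (if ∀ i, x i j = true then (-1 : ℝ) else 1)

/-- The contraction factor for `k + 1` players. -/
noncomputable def mu : ℕ → ℝ
  | 0 => 0
  | (k + 1) => Real.sqrt ((1 + mu k) / 2)

theorem mu_nonneg (k : ℕ) : 0 ≤ mu k := by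
  cases k with
  | zero => simp [mu]
  | succ k => exact Real.sqrt_nonneg _

theorem mu_lt_one (k : ℕ) : mu k < 1 := by
  induction k with
  | zero => simp [mu]
  | succ k ih =>
    rw [mu, Real.sqrt_lt' one_pos]
    linarith

theorem gsign_abs {g N : ℕ} (J : Finset (Fin N)) (x : Fin g → (Fin N → Bool)) :
    |gsign J x| = 1 := by
  rw [gsign, Finset.abs_prod]
  apply Finset.prod_eq_one
  intro j _
  split_ifs <;> simp

theorem gsign_cons_mul {g N : ℕ} (J : Finset (Fin N)) (u v : Fin N → Bool)
    (y : Fin g → (Fin N → Bool)) :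
    gsign J (Fin.cons u y : Fin (g + 1) → (Fin N → Bool)) *
      gsign J (Fin.cons v y : Fin (g + 1) → (Fin N → Bool)) =
    gsign (J.filter (fun j => u j ≠ v j)) y := by
  rw [gsign, gsign, gsign, Finset.prod_filter, ← Finset.prod_mul_distrib]
  apply Finset.prod_congr rfl
  intro j _
  have h1 : (∀ i, (Fin.cons u y : Fin (g + 1) → (Fin N → Bool)) i j = true) ↔
      (u j = true ∧ ∀ i, y i j = true) := by
    rw [Fin.forall_fin_succ]; simp
  have h2 : (∀ i, (Fin.cons v y : Fin (g + 1) → (Fin N → Bool)) i j = true) ↔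
      (v j = true ∧ ∀ i, y i j = true) := by
    rw [Fin.forall_fin_succ]; simp
  simp only [h1, h2]
  by_cases hy : ∀ i, y i j = true
  · cases hu : u j <;> cases hv : v j <;> simp [hy]
  · cases hu : u j <;> cases hv : v j <;> simp [hy]

theorem sum_pair_pow {N : ℕ} (J : Finset (Fin N)) (m : ℝ) :
    ∑ u : Fin N → Bool, ∑ v : Fin N → Bool, m ^ (J.filter (fun j => u j ≠ v j)).card =
      (2 ^ N) ^ 2 * ((1 + m) / 2) ^ J.card := by
  classical
  have h1 : ∀ u v : Fin N → Bool, m ^ (J.filter (fun j => u j ≠ v j)).card =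
      ∏ j, (if j ∈ J ∧ u j ≠ v j then m else 1) := by
    intro u v
    rw [Finset.prod_ite, Finset.prod_const, Finset.prod_const_one, mul_one]
    congr 2
    ext j; simp
  simp_rw [h1]
  rw [← Fintype.sum_prod_type' (fun u v : Fin N → Bool => ∏ j, (if j ∈ J ∧ u j ≠ v j then m else 1))]
  have e : (∑ p : (Fin N → Bool) × (Fin N → Bool), ∏ j, (if j ∈ J ∧ p.1 j ≠ p.2 j then m else 1)) =
      ∑ w : Fin N → (Bool × Bool), ∏ j, (if j ∈ J ∧ (w j).1 ≠ (w j).2 then m else 1) := by
    refine (Fintype.sum_equiv (Equiv.arrowProdEquivProdArrow (Fin N) (fun _ => Bool) (fun _ => Bool)) _ _ ?_).symm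
    intro w
    rfl
  rw [e]
  have e2 := Finset.prod_univ_sum (fun _ : Fin N => (Finset.univ : Finset (Bool × Bool)))
    (fun j p => (if j ∈ J ∧ p.1 ≠ p.2 then m else (1:ℝ)))
  rw [Fintype.piFinset_univ] at e2
  rw [← e2]
  have e3 : ∀ j : Fin N, (∑ p : Bool × Bool, (if j ∈ J ∧ p.1 ≠ p.2 then m else (1:ℝ))) =
      4 * (if j ∈ J then (1 + m) / 2 else 1) := by
    intro j
    by_cases hj : j ∈ J
    · simp [hj, Fintype.sum_prod_type]; ring
    · simp [hj, Fintype.sum_prod_type]
  simp_rw [e3]
  rw [Finset.prod_mul_distrib, Finset.prod_const, Finset.card_univ, Fintype.card_fin,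
    Finset.prod_ite, Finset.prod_const, Finset.prod_const_one, mul_one]
  congr 1
  · rw [← pow_mul, mul_comm N 2, pow_mul]; norm_num
  · congr 2
    ext j; simp

/-- Discrepancy bound for the generalised inner product with respect to cylinder intersections. -/
theorem gip_disc (g N : ℕ) : ∀ (J : Finset (Fin N))
    (φ : Fin (g + 1) → (Fin (g + 1) → (Fin N → Bool)) → ℝ),
    (∀ i x, |φ i x| ≤ 1) → (∀ i x y, (∀ j, j ≠ i → x j = y j) → φ i x = φ i y) →
    |∑ x : Fin (g + 1) → (Fin N → Bool), gsign J x * ∏ i, φ i x| ≤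
      (2 ^ N : ℝ) ^ (g + 1) * (mu g) ^ J.card := by
  classical
  induction g with
  | zero =>
    intro J φ hb hi
    have hconst : ∀ x : Fin 1 → (Fin N → Bool), φ 0 x = φ 0 (fun _ _ => true) := by
      intro x; apply hi; intro j hj; exact absurd (by omega) hj
    have h1 : ∑ x : Fin (0 + 1) → (Fin N → Bool), gsign J x * ∏ i, φ i x =
        (∑ x : Fin (0 + 1) → (Fin N → Bool), gsign J x) * φ 0 (fun _ _ => true) := by
      rw [Finset.sum_mul]
      apply Finset.sum_congr rfl
      intro x _
      have : ∏ i : Fin (0 + 1), φ i x = φ 0 x := by simp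
      rw [this, hconst]
    have h2 : ∑ x : Fin (0 + 1) → (Fin N → Bool), gsign J x =
        ∑ u : Fin N → Bool, ∏ j, (if j ∈ J then (if u j = true then (-1:ℝ) else 1) else 1) := by
      refine Fintype.sum_equiv (Equiv.funUnique (Fin 1) (Fin N → Bool)) _ _ ?_
      intro x
      rw [gsign, Finset.prod_ite_mem, Finset.univ_inter]
      apply Finset.prod_congr rfl
      intro j _
      have : (∀ i : Fin (0+1), x i j = true) ↔ (Equiv.funUnique (Fin 1) (Fin N → Bool)) x j = true := by
        constructor
        · intro h; exact h 0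
        · intro h i
          have hi0 : i = 0 := by omega
          rw [hi0]; exact h
      simp only [this]
    have e2 := Finset.prod_univ_sum (fun _ : Fin N => (Finset.univ : Finset Bool))
      (fun j p => (if j ∈ J then (if p = true then (-1:ℝ) else 1) else 1))
    rw [Fintype.piFinset_univ] at e2
    rw [h1, h2, ← e2, abs_mul]
    by_cases hJ : J = ∅
    · subst hJ
      simp only [Finset.notMem_empty, if_false, Finset.sum_const, Finset.card_univ, Fintype.card_bool,
        nsmul_eq_mul, mul_one, Finset.prod_const, Fintype.card_fin, Finset.card_empty, pow_zero]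
      have hh := hb 0 (fun _ _ => true)
      have : |((2:ℕ):ℝ) ^ N| = 2 ^ N := by rw [abs_of_pos]; norm_num; positivity
      rw [this]
      have hp : (0:ℝ) < 2 ^ N := by positivity
      calc (2:ℝ) ^ N * |φ 0 (fun _ _ => true)| ≤ 2 ^ N * 1 := by gcongr
        _ = (2 ^ N) ^ (0+1) := by ring
    · obtain ⟨j, hj⟩ := Finset.nonempty_iff_ne_empty.mpr hJ
      have hz : ∏ i : Fin N, ∑ p : Bool, (if i ∈ J then (if p = true then (-1:ℝ) else 1) else 1) = 0 := by
        apply Finset.prod_eq_zero (Finset.mem_univ j)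
        simp [hj]
      rw [hz]
      simp only [abs_zero, zero_mul]
      have := mu_nonneg 0
      positivity
  | succ g ih =>
    intro J φ hb hi
    -- split off row 0
    have hsplit : ∑ x : Fin (g + 1 + 1) → (Fin N → Bool), gsign J x * ∏ i, φ i x =
        ∑ y : Fin (g + 1) → (Fin N → Bool), φ 0 (Fin.cons (fun _ => true) y) *
          ∑ u : (Fin N → Bool), gsign J (Fin.cons u y : Fin (g + 1 + 1) → (Fin N → Bool)) *
            ∏ i : Fin (g + 1), φ i.succ (Fin.cons u y) := by
      rw [← (Fin.consEquiv (fun _ : Fin (g + 1 + 1) => (Fin N → Bool))).sum_comp, Fintype.sum_prod_type,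
        Finset.sum_comm]
      apply Finset.sum_congr rfl
      intro y _
      rw [Finset.mul_sum]
      apply Finset.sum_congr rfl
      intro u _
      have h0 : φ 0 (Fin.cons u y : Fin (g + 1 + 1) → (Fin N → Bool)) = φ 0 (Fin.cons (fun _ => true) y) := by
        apply hi
        intro j hj
        obtain ⟨j', rfl⟩ := Fin.exists_succ_eq.mpr hj
        simp
      simp only [Fin.consEquiv, Equiv.coe_fn_mk]
      rw [Fin.prod_univ_succ, h0]
      ring
    rw [hsplit]
    set b : (Fin (g + 1) → (Fin N → Bool)) → ℝ := fun y => ∑ u : (Fin N → Bool), gsign J (Fin.cons u y : Fin (g + 1 + 1) → (Fin N → Bool)) *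
            ∏ i : Fin (g + 1), φ i.succ (Fin.cons u y) with hbdef
    have hcs := Finset.sum_mul_sq_le_sq_mul_sq (Finset.univ : Finset (Fin (g + 1) → (Fin N → Bool)))
      (fun y => φ 0 (Fin.cons (fun _ => true) y)) b
    have hcard : ((Fintype.card (Fin (g + 1) → (Fin N → Bool)) : ℕ) : ℝ) = (2 ^ N : ℝ) ^ (g + 1) := by
      simp
    have ha : ∑ y : Fin (g + 1) → (Fin N → Bool), (φ 0 (Fin.cons (fun _ => true) y)) ^ 2 ≤ (2 ^ N : ℝ) ^ (g + 1) := by
      calc ∑ y : Fin (g + 1) → (Fin N → Bool), (φ 0 (Fin.cons (fun _ => true) y)) ^ 2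
          ≤ ∑ y : Fin (g + 1) → (Fin N → Bool), (1:ℝ) := by
            apply Finset.sum_le_sum
            intro y _
            have := hb 0 (Fin.cons (fun _ => true) y)
            rw [← sq_abs]
            have h0 := abs_nonneg (φ 0 (Fin.cons (fun _ => true) y))
            nlinarith
        _ = (2 ^ N : ℝ) ^ (g + 1) := by
            rw [Finset.sum_const, Finset.card_univ, nsmul_eq_mul, mul_one, hcard]
    have hbb : ∑ y : Fin (g + 1) → (Fin N → Bool), (b y) ^ 2 ≤
        (2 ^ N : ℝ) ^ (g + 1) * ((2 ^ N) ^ 2 * ((1 + mu g) / 2) ^ J.card) := by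
      have e1 : ∀ y : Fin (g + 1) → (Fin N → Bool), (b y) ^ 2 = ∑ u : (Fin N → Bool), ∑ v : (Fin N → Bool),
          gsign (J.filter (fun j => u j ≠ v j)) y *
            ∏ i : Fin (g + 1), (φ i.succ (Fin.cons u y) * φ i.succ (Fin.cons v y)) := by
        intro y
        rw [sq, hbdef, Finset.sum_mul_sum]
        apply Finset.sum_congr rfl
        intro u _
        apply Finset.sum_congr rfl
        intro v _
        rw [← gsign_cons_mul, Finset.prod_mul_distrib]
        ring
      calc ∑ y : Fin (g + 1) → (Fin N → Bool), (b y) ^ 2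
          = ∑ u : (Fin N → Bool), ∑ v : (Fin N → Bool), ∑ y : Fin (g + 1) → (Fin N → Bool), gsign (J.filter (fun j => u j ≠ v j)) y *
            ∏ i : Fin (g + 1), (φ i.succ (Fin.cons u y) * φ i.succ (Fin.cons v y)) := by
            simp_rw [e1]
            rw [Finset.sum_comm]
            apply Finset.sum_congr rfl
            intro u _
            rw [Finset.sum_comm]
        _ ≤ ∑ u : (Fin N → Bool), ∑ v : (Fin N → Bool), (2 ^ N : ℝ) ^ (g + 1) * (mu g) ^ (J.filter (fun j => u j ≠ v j)).card := by
            apply Finset.sum_le_sum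
            intro u _
            apply Finset.sum_le_sum
            intro v _
            refine le_trans (le_abs_self _) ?_
            apply ih
            · intro i y
              rw [abs_mul]
              have h1 := hb i.succ (Fin.cons u y)
              have h2 := hb i.succ (Fin.cons v y)
              have h3 := abs_nonneg (φ i.succ (Fin.cons v y))
              nlinarith [abs_nonneg (φ i.succ (Fin.cons u y))]
            · intro i x y hxy
              have h1 : ∀ u : (Fin N → Bool), φ i.succ (Fin.cons u x) = φ i.succ (Fin.cons u y) := by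
                intro u
                apply hi
                intro j hj
                refine Fin.cases ?_ ?_ j (motive := fun j => j ≠ i.succ →
                  (Fin.cons u x : Fin (g + 1 + 1) → (Fin N → Bool)) j = (Fin.cons u y : Fin (g + 1 + 1) → (Fin N → Bool)) j) ?_
                · intro _; simp
                · intro j' hj'
                  simp only [Fin.cons_succ]
                  apply hxy
                  intro h; apply hj'; rw [h]
                · exact hj
              rw [h1, h1]
        _ = (2 ^ N : ℝ) ^ (g + 1) * ((2 ^ N) ^ 2 * ((1 + mu g) / 2) ^ J.card) := by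
            rw [← sum_pair_pow]
            simp_rw [Finset.mul_sum]
    have hsq : (∑ y : Fin (g + 1) → (Fin N → Bool), φ 0 (Fin.cons (fun _ => true) y) * b y) ^ 2 ≤
        ((2 ^ N : ℝ) ^ (g + 1 + 1) * (mu (g + 1)) ^ J.card) ^ 2 := by
      refine le_trans hcs ?_
      have hmu : (mu (g + 1)) ^ 2 = (1 + mu g) / 2 := by
        rw [mu, Real.sq_sqrt]
        have := mu_nonneg g
        positivity
      calc (∑ y : Fin (g + 1) → (Fin N → Bool), (φ 0 (Fin.cons (fun _ => true) y)) ^ 2) *
            ∑ y : Fin (g + 1) → (Fin N → Bool), (b y) ^ 2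
          ≤ (2 ^ N : ℝ) ^ (g + 1) * ((2 ^ N : ℝ) ^ (g + 1) * ((2 ^ N) ^ 2 * ((1 + mu g) / 2) ^ J.card)) := by
            apply mul_le_mul ha hbb
            · positivity
            · positivity
        _ = ((2 ^ N : ℝ) ^ (g + 1 + 1) * (mu (g + 1)) ^ J.card) ^ 2 := by
            rw [← hmu, ← pow_mul (mu (g+1)), mul_comm 2 J.card, pow_mul (mu (g+1))]
            ring
    have hnn : 0 ≤ (2 ^ N : ℝ) ^ (g + 1 + 1) * (mu (g + 1)) ^ J.card := by
      have := mu_nonneg (g + 1)
      positivity
    exact abs_le_of_sq_le_sq hsq hnn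

end Pool.Agent.H541R2
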