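import Pool.Agent.H541R2.Sim2
import Pool.Agent.H541R2.GIP

set_option autoImplicit false

namespace Pool.Agent.H541R2

variable {k : ℕ} {Q St : Type}

/-- The data of the two code words. -/
structure Code (Q : Type) where
  x₀ : List (Fin 4)
  x₁ : List (Fin 4)
  j : ℕ
  len : x₀.length = x₁.length
  ne : x₀ ≠ x₁
  bits₀ : ∀ a ∈ x₀, a = 0 ∨ a = 1
  bits₁ : ∀ a ∈ x₁, a = 0 ∨ a = 1
  beh : (Beh (x₀ ++ [2]) : Table Q (Fin 4) → _) = Beh (x₁ ++ [2])
  idem : (Beh (rep (j + 1) (x₁ ++ [2]) ++ rep (j + 1) (x₁ ++ [2])) : Table Q (Fin 4) → _) =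
    Beh (rep (j + 1) (x₁ ++ [2]))

/-- A code exists for every finite set of states. -/
theorem exists_code (Q : Type) [Finite Q] : Nonempty (Code Q) := by
  classical
  -- pigeonhole
  obtain ⟨n, hn⟩ : ∃ n : ℕ, Nat.card (Table Q (Fin 4) → Bool → Q → Bool → Q → Prop) < 2 ^ n :=
    ⟨_, Nat.lt_two_pow_self⟩
  haveI := Fintype.ofFinite (Table Q (Fin 4) → Bool → Q → Bool → Q → Prop)
  let w : (Fin n → Bool) → List (Fin 4) := fun x => List.ofFn (fun i => if x i then (1 : Fin 4) else 0)
  obtain ⟨x, y, hxy, hf⟩ := Fintype.exists_ne_map_eq_of_card_lt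
    (fun x : Fin n → Bool => (Beh (w x ++ [2]) : Table Q (Fin 4) → Bool → Q → Bool → Q → Prop))
    (by rw [← Nat.card_eq_fintype_card]; simpa using hn)
  have hlen : ∀ x, (w x).length = n := by intro x; simp [w]
  obtain ⟨j, hj⟩ := exists_idem (Q := Q) (w y ++ [2]) (by simp)
  refine ⟨⟨w x, w y, j, by rw [hlen, hlen], ?_, ?_, ?_, hf, hj⟩⟩
  · intro h
    apply hxy
    have h1 := List.ofFn_injective h
    funext i
    have h2 := congrFun h1 i
    by_cases hx : x i <;> by_cases hy : y i <;> simp_all
  · intro a ha
    simp only [w, List.mem_ofFn] at ha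
    obtain ⟨i, rfl⟩ := ha
    split_ifs <;> simp
  · intro a ha
    simp only [w, List.mem_ofFn] at ha
    obtain ⟨i, rfl⟩ := ha
    split_ifs <;> simp

/-- The block coding one bit. -/
def Code.v (C : Code Q) (b : Bool) : List (Fin 4) :=
  ((if b then C.x₁ else C.x₀) ++ [2]) ++ rep C.j (C.x₁ ++ [2])

theorem Code.v_true (C : Code Q) : C.v true = rep (C.j + 1) (C.x₁ ++ [2]) := by
  rw [rep_succ]; rfl

theorem Code.v_length (C : Code Q) (b : Bool) :
    (C.v b).length = (C.j + 1) * (C.x₁.length + 1) := by
  cases b
  · simp [Code.v, rep_length, C.len]; ring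
  · simp [Code.v, rep_length]; ring

theorem Code.v_pos (C : Code Q) (b : Bool) : 1 ≤ (C.v b).length := by
  rw [C.v_length]; nlinarith

theorem Code.beh_v (C : Code Q) (b : Bool) :
    (Beh (C.v b) : Table Q (Fin 4) → _) = Beh (C.v true) := by
  cases b
  · unfold Code.v
    simp only [Bool.false_eq_true, if_false, if_true]
    by_cases hj : C.j = 0
    · rw [hj, rep_zero, List.append_nil, List.append_nil]; exact C.beh
    · have h1 : 1 ≤ (rep C.j (C.x₁ ++ [2])).length := by
        rw [rep_length, List.length_append]
        have : 1 ≤ C.j := Nat.one_le_iff_ne_zero.mpr hj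
        simp only [List.length_cons, List.length_nil]
        nlinarith
      exact beh_congr (by simp) h1 (by simp) h1 C.beh rfl
  · rfl

/-- The variable part of a row. -/
def Code.zone (C : Code Q) (b : List Bool) : List (Fin 4) := (b.map C.v).flatten

theorem Code.zone_length (C : Code Q) (b : List Bool) :
    (C.zone b).length = b.length * (C.v true).length := by
  induction b with
  | nil => simp [Code.zone]
  | cons x b ih =>
    unfold Code.zone at *
    rw [List.map_cons, List.flatten_cons, List.length_append, ih, C.v_length, C.v_length,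
      List.length_cons]
    ring

theorem Code.beh_blk (C : Code Q) (b : List Bool) (hb : b ≠ []) (l r : ℕ) :
    (Beh (blk (C.v true) (C.zone b) l r) : Table Q (Fin 4) → _) = Beh (C.v true) := by
  have e : blk (C.v true) (C.zone b) l r =
      (List.replicate l (C.v true) ++ b.map C.v ++ List.replicate r (C.v true)).flatten := by
    simp [blk, rep, Code.zone]
  rw [e]
  apply beh_flatten
  · exact C.v_pos true
  · rw [C.v_true]; exact C.idem
  · intro h
    rw [List.append_eq_nil_iff, List.append_eq_nil_iff] at h
    exact hb (List.map_eq_nil_iff.mp h.1.2)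
  · intro y hy
    rw [List.mem_append, List.mem_append] at hy
    rcases hy with (hy | hy) | hy
    · rw [List.eq_of_mem_replicate hy]; exact ⟨C.v_pos true, rfl⟩
    · obtain ⟨a, _, rfl⟩ := List.mem_map.mp hy
      exact ⟨C.v_pos a, C.beh_v a⟩
    · rw [List.eq_of_mem_replicate hy]; exact ⟨C.v_pos true, rfl⟩

/-- A row. -/
def Code.row (C : Code Q) (N : ℕ) (b : List Bool) : List (Fin 4) := blk (C.v true) (C.zone b) N N

theorem Code.row_length (C : Code Q) (N : ℕ) (b : List Bool) (hb : b.length = N) :
    (C.row N b).length = 3 * N * (C.v true).length := by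
  rw [Code.row, blk_length, Code.zone_length, hb]; ring

/-- The rows coded by `b` (the first row is neutral). -/
def rowsOf {g N : ℕ} (b : Fin g → Fin N → Bool) : List (List Bool) := List.ofFn (fun i => List.ofFn (b i))

/-- The whole input word. -/
def Code.word (C : Code Q) (N : ℕ) (rows : List (List Bool)) : List (Fin 4) :=
  C.row N (List.replicate N true) ++ rows.flatMap (fun b => 3 :: C.row N b)

def Code.W (C : Code Q) {g N : ℕ} (b : Fin g → Fin N → Bool) : List (Fin 4) := C.word N (rowsOf b)

theorem Code.flatMap_length (C : Code Q) (N : ℕ) (rows : List (List Bool))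
    (h : ∀ b ∈ rows, b.length = N) :
    (rows.flatMap (fun b => 3 :: C.row N b)).length = rows.length * (3 * N * (C.v true).length + 1) := by
  induction rows with
  | nil => simp
  | cons b rows ih =>
    rw [List.flatMap_cons, List.length_append, ih (fun b hb => h b (by simp [hb])), List.length_cons,
      List.length_cons, C.row_length N b (h b (by simp))]
    ring

theorem mem_rowsOf {g N : ℕ} (b : Fin g → Fin N → Bool) : ∀ x ∈ rowsOf b, x.length = N := by
  intro x hx
  simp only [rowsOf, List.mem_ofFn] at hx
  obtain ⟨i, rfl⟩ := hx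
  simp

theorem Code.W_length (C : Code Q) {g N : ℕ} (b : Fin g → Fin N → Bool) :
    (C.W b).length + 1 = (g + 1) * (3 * N * (C.v true).length + 1) := by
  rw [Code.W, Code.word, List.length_append, C.row_length N _ (by simp),
    C.flatMap_length N _ (mem_rowsOf b)]
  simp only [rowsOf, List.length_ofFn]
  ring

/-- The part of the word before row `i`. -/
def Code.U (C : Code Q) {g N : ℕ} (b : Fin g → Fin N → Bool) (i : ℕ) : List (Fin 4) :=
  C.row N (List.replicate N true) ++ ((rowsOf b).take i).flatMap (fun b => 3 :: C.row N b) ++ [3]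

/-- The part of the word after row `i`. -/
def Code.U' (C : Code Q) {g N : ℕ} (b : Fin g → Fin N → Bool) (i : ℕ) : List (Fin 4) :=
  ((rowsOf b).drop (i + 1)).flatMap (fun b => 3 :: C.row N b)

theorem Code.U_length (C : Code Q) {g N : ℕ} (b : Fin g → Fin N → Bool) (i : ℕ) (hi : i ≤ g) :
    (C.U b i).length = (i + 1) * (3 * N * (C.v true).length + 1) := by
  rw [Code.U, List.length_append, List.length_append, C.row_length N _ (by simp),
    C.flatMap_length N _ (fun x hx => mem_rowsOf b x (List.mem_of_mem_take hx))]
  simp only [rowsOf, List.length_take, List.length_ofFn, List.length_cons, List.length_nil]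
  rw [min_eq_left hi]
  ring

theorem Code.W_split (C : Code Q) {g N : ℕ} (b : Fin g → Fin N → Bool) (i : Fin g) :
    C.W b = C.U b i ++ blk (C.v true) (C.zone (List.ofFn (b i))) N N ++ C.U' b i := by
  have h : rowsOf b = (rowsOf b).take i ++ List.ofFn (b i) :: (rowsOf b).drop (i + 1) := by
    have hlt : i.val < (rowsOf b).length := by simp [rowsOf]
    have e : (rowsOf b)[i.val] = List.ofFn (b i) := by simp [rowsOf]
    rw [← e, ← List.drop_eq_getElem_cons hlt, List.take_append_drop]
  rw [Code.W, Code.word, h, List.flatMap_append, List.flatMap_cons, Code.U, Code.U', Code.row]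
  simp [List.append_assoc, Code.row]

theorem Code.U_congr (C : Code Q) {g N : ℕ} (b b' : Fin g → Fin N → Bool) (i : Fin g)
    (h : ∀ j, j ≠ i → b j = b' j) : C.U b i = C.U b' i ∧ C.U' b i = C.U' b' i := by
  have h1 : (rowsOf b).take i = (rowsOf b').take i := by
    apply List.ext_getElem
    · simp [rowsOf]
    · intro m hm1 hm2
      have hmi : m < i.val := by
        have := hm1; simp [rowsOf] at this; omega
      simp only [List.getElem_take, rowsOf, List.getElem_ofFn]
      rw [h]
      intro hh; rw [← hh] at hmi; simp at hmi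
  have h2 : (rowsOf b).drop (i + 1) = (rowsOf b').drop (i + 1) := by
    apply List.ext_getElem
    · simp [rowsOf]
    · intro m hm1 hm2
      simp only [List.getElem_drop, rowsOf, List.getElem_ofFn]
      rw [h]
      intro hh
      have := congrArg Fin.val hh
      simp at this
      omega
  rw [Code.U, Code.U, Code.U', Code.U', h1, h2]
  exact ⟨rfl, rfl⟩

/-- A row avoided by all heads. -/
theorem exists_row (C : Code Q) {N : ℕ} (c : Cfg k Q St) :
    ∃ i : Fin (k + 1), ∀ m, c.p m / (3 * N * (C.v true).length + 1) ≠ i.val + 1 := by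
  classical
  by_contra hh
  push Not at hh
  choose f hf using hh
  have hinj : Function.Injective f := by
    intro i i' h
    have h1 := hf i
    have h2 := hf i'
    rw [h] at h1
    rw [h1] at h2
    exact Fin.ext (by omega)
  have := Fintype.card_le_of_injective f hinj
  simp at this

open Classical in
noncomputable def Code.star (C : Code Q) (N : ℕ) (c : Cfg k Q St) : Fin (k + 1) :=
  (exists_row C (N := N) c).choose

theorem Code.star_spec (C : Code Q) (N : ℕ) (c : Cfg k Q St) (m : Fin k) :
    c.p m / (3 * N * (C.v true).length + 1) ≠ (C.star N c).val + 1 :=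
  (exists_row C (N := N) c).choose_spec m

/-- A phase of `N` pieces does not depend on the row avoided by all heads. -/
theorem phase_indep (C : Code Q) {N : ℕ} (hN : 1 ≤ N) (M : Mach (Fin 4) k Q St)
    (c d : Cfg k Q St) (b b' : Fin (k + 1) → Fin N → Bool)
    (hbb : ∀ j, j ≠ C.star N c → b j = b' j)
    (hT : ∃ T, Ph M (C.W b) T N c d) : ∃ T, Ph M (C.W b') T N c d := by
  obtain ⟨T, hT⟩ := hT
  obtain ⟨hU, hU'⟩ := C.U_congr b b' (C.star N c) hbb
  have hne : ∀ b : Fin (k + 1) → Fin N → Bool, List.ofFn (b (C.star N c)) ≠ [] := by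
    intro b hh
    have := congrArg List.length hh
    simp at this
    omega
  rw [C.W_split b (C.star N c)] at hT
  rw [C.W_split b' (C.star N c), ← hU, ← hU']
  have hUl : (C.U b (C.star N c)).length =
      ((C.star N c).val + 1) * (3 * N * (C.v true).length + 1) :=
    C.U_length b _ (by have := (C.star N c).isLt; omega)
  have hbl : (blk (C.v true) (C.zone (List.ofFn (b (C.star N c)))) N N).length =
      3 * N * (C.v true).length := C.row_length N _ (by simp)
  refine sim M (C.v true) _ _ (C.v_pos true) ?_ (C.beh_blk _ (hne b)) (C.beh_blk _ (hne b')) d N N N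
    _ _ T c ?_ le_rfl le_rfl ?_ hT
  · rw [C.zone_length, C.zone_length]; simp
  · intro hh
    have := congrArg List.length hh
    rw [hUl] at this
    simp at this
  · intro m
    have h1 := C.star_spec N c m
    rw [hUl, hbl]
    have hpos : 0 < 3 * N * (C.v true).length + 1 := by omega
    rcases lt_or_gt_of_ne h1 with h2 | h2
    · left
      rw [Nat.div_lt_iff_lt_mul hpos] at h2
      exact h2.le
    · right
      have h3 : (C.star N c).val + 1 + 1 ≤ c.p m / (3 * N * (C.v true).length + 1) := h2
      rw [Nat.le_div_iff_mul_le hpos] at h3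
      calc _ = ((C.star N c).val + 1 + 1) * (3 * N * (C.v true).length + 1) := by ring
        _ ≤ _ := h3

end Pool.Agent.H541R2
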