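import Pool.Agent.H541R2.Pda
import Pool.Agent.H541R2.Words

set_option autoImplicit false

namespace Pool.Agent.H541R2

variable {Q : Type}

/-- The fold over the columns, with the rows as functions. -/
def fld {g : ℕ} : List (Fin 4) → (Fin g → List (Fin 4)) → Bool × Bool → Bool × Bool
  | [], _, c => c
  | a :: x, r, c => fld x (fun i => (r i).tail) (upd c a (decide (∀ i, (r i).head? = some a)))

theorem fold_eq_fld {g : ℕ} (r : Fin g → List (Fin 4)) (x : List (Fin 4)) :
    ∀ (t : ℕ) (c : Bool × Bool), fold (List.ofFn r) t x c = fld x (fun i => (r i).drop t) c := by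
  induction x with
  | nil => intro t c; rfl
  | cons a x ih =>
    intro t c
    rw [fold, fld, ih (t + 1)]
    have e : allOk (List.ofFn r) a (t + 1) = decide (∀ i, ((r i).drop t).head? = some a) := by
      rw [allOk, Bool.eq_iff_iff, List.all_eq_true, decide_eq_true_iff]
      simp [List.mem_ofFn]
    rw [e]
    congr 1
    funext i
    rw [List.tail_drop]

theorem fld_append {g : ℕ} (x : List (Fin 4)) : ∀ (y : List (Fin 4)) (X Y : Fin g → List (Fin 4))
    (_ : ∀ i, (X i).length = x.length) (c : Bool × Bool),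
    fld (x ++ y) (fun i => X i ++ Y i) c = fld y Y (fld x X c) := by
  induction x with
  | nil =>
    intro y X Y h c
    have : ∀ i, X i = [] := fun i => List.length_eq_zero_iff.mp (h i)
    simp [this, fld]
  | cons a x ih =>
    intro y X Y h c
    have hne : ∀ i, X i ≠ [] := by
      intro i hi
      have := h i
      rw [hi] at this
      simp at this
    rw [List.cons_append, fld, fld]
    have e1 : (fun i => (X i ++ Y i).tail) = fun i => (X i).tail ++ Y i := by
      funext i
      rw [List.tail_append_of_ne_nil (hne i)]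
    have e2 : ∀ i, (X i ++ Y i).head? = (X i).head? := by
      intro i
      rw [List.head?_append_of_ne_nil _ (hne i)]
    rw [e1]
    simp only [e2]
    apply ih
    intro i
    rw [List.length_tail, h i]; rfl

theorem fld_tok {g : ℕ} (u : List (Fin 4)) : ∀ (U : Fin g → List (Fin 4)) (cur par : Bool),
    (∀ a ∈ u, a ≠ 2) → (∀ i, (U i).length = u.length) →
    fld (u ++ [2]) (fun i => U i ++ [2]) (cur, par) =
      (true, xor par (cur && decide (∀ i, U i = u))) := by
  induction u with
  | nil =>
    intro U cur par _ hl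
    have : ∀ i, U i = [] := fun i => List.length_eq_zero_iff.mp (hl i)
    simp [this, fld, upd]
  | cons a u ih =>
    intro U cur par ha hl
    have hex : ∀ i, ∃ b V, U i = b :: V ∧ V.length = u.length := by
      intro i
      cases h : U i with
      | nil => have := hl i; rw [h] at this; simp at this
      | cons b V =>
        have := hl i
        rw [h] at this
        exact ⟨b, V, rfl, by simpa using this⟩
    choose b V hbV hV using hex
    have ha2 : a ≠ 2 := ha a (by simp)
    have e : (fun i => U i ++ [2]) = fun i => b i :: (V i ++ [2]) := by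
      funext i; rw [hbV]; rfl
    rw [e, List.cons_append, fld]
    simp only [List.tail_cons, List.head?_cons, Option.some.injEq, upd, ha2, if_false]
    rw [ih V _ _ (fun x hx => ha x (by simp [hx])) hV]
    congr 2
    rw [Bool.and_assoc]
    congr 1
    rw [Bool.eq_iff_iff, Bool.and_eq_true, decide_eq_true_iff, decide_eq_true_iff, decide_eq_true_iff]
    constructor
    · rintro ⟨h1, h2⟩ i
      rw [hbV, h1, h2]
    · intro h
      constructor
      · intro i
        have := h i
        rw [hbV] at this
        exact (List.cons.inj this).1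
      · intro i
        have := h i
        rw [hbV] at this
        exact (List.cons.inj this).2

/-- The sign of a truth value. -/
noncomputable def sg (p : Bool) : ℝ := if p then -1 else 1

theorem sg_xor (p q : Bool) : sg (xor p q) = sg p * sg q := by
  cases p <;> cases q <;> simp [sg]

theorem sg_eq_neg_one (p : Bool) : p = true ↔ sg p = -1 := by
  cases p
  · simp only [sg]; norm_num
  · simp [sg]

theorem sg_decide (P : Prop) [Decidable P] : sg (decide P) = if P then -1 else 1 := by
  simp [sg]

theorem fld_rep {g : ℕ} (C : Code Q) (j : ℕ) (par : Bool) :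
    ∃ p', fld (rep j (C.x₁ ++ [2])) (fun _ : Fin g => rep j (C.x₁ ++ [2])) (true, par) = (true, p') ∧
      sg p' = sg par * (-1) ^ j := by
  induction j generalizing par with
  | zero => exact ⟨par, by simp [rep_zero, fld], by simp⟩
  | succ j ih =>
    have hne : ∀ a ∈ C.x₁, a ≠ 2 := by
      intro a ha; rcases C.bits₁ a ha with h | h <;> rw [h] <;> decide
    have h1 := fld_tok C.x₁ (fun _ : Fin g => C.x₁) true par hne (fun _ => rfl)
    obtain ⟨p', h2, h3⟩ := ih (xor par (true && decide (∀ _ : Fin g, C.x₁ = C.x₁)))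
    refine ⟨p', ?_, ?_⟩
    · have := fld_append (C.x₁ ++ [2]) (rep j (C.x₁ ++ [2])) (fun _ : Fin g => C.x₁ ++ [2])
        (fun _ : Fin g => rep j (C.x₁ ++ [2])) (fun _ => rfl) (true, par)
      rw [rep_succ, this, h1, h2]
    · rw [h3, sg_xor, Bool.true_and, sg_decide]
      simp only [implies_true, if_true]
      ring

theorem fld_v {g : ℕ} (C : Code Q) (β : Fin g → Bool) (par : Bool) :
    ∃ p', fld (C.v true) (fun i => C.v (β i)) (true, par) = (true, p') ∧
      sg p' = sg par * (if ∀ i, β i = true then -1 else 1) * (-1) ^ C.j := by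
  have hne : ∀ a ∈ C.x₁, a ≠ 2 := by
    intro a ha; rcases C.bits₁ a ha with h | h <;> rw [h] <;> decide
  have h1 := fld_tok C.x₁ (fun i => if β i then C.x₁ else C.x₀) true par hne (by
    intro i
    by_cases h : β i
    · rw [if_pos h]
    · rw [if_neg h]; exact C.len)
  obtain ⟨p', h2, h3⟩ := fld_rep (g := g) C C.j
    (xor par (true && decide (∀ i, (if β i then C.x₁ else C.x₀) = C.x₁)))
  refine ⟨p', ?_, ?_⟩
  · have := fld_append (C.x₁ ++ [2]) (rep C.j (C.x₁ ++ [2]))
      (fun i => (if β i then C.x₁ else C.x₀) ++ [2])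
      (fun _ : Fin g => rep C.j (C.x₁ ++ [2])) (by
        intro i
        by_cases h : β i
        · rw [if_pos h]
        · rw [if_neg h, List.length_append, List.length_append, C.len]) (true, par)
    have e : C.v true = (C.x₁ ++ [2]) ++ rep C.j (C.x₁ ++ [2]) := rfl
    rw [e]
    unfold Code.v
    rw [this, h1, h2]
  · rw [h3, sg_xor, Bool.true_and, sg_decide]
    have e : (∀ i, (if β i then C.x₁ else C.x₀) = C.x₁) ↔ ∀ i, β i = true := by
      apply forall_congr'
      intro i
      cases h : β i
      · simp [C.ne]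
      · simp
    simp only [e]

theorem fld_zone {g : ℕ} (C : Code Q) : ∀ (N : ℕ) (b : Fin g → Fin N → Bool) (par : Bool),
    ∃ p', fld (rep N (C.v true)) (fun i => C.zone (List.ofFn (b i))) (true, par) = (true, p') ∧
      sg p' = sg par * ((-1) ^ C.j) ^ N * gsign Finset.univ b := by
  intro N
  induction N with
  | zero =>
    intro b par
    exact ⟨par, by simp [rep_zero, fld], by simp [gsign]⟩
  | succ N ih =>
    intro b par
    obtain ⟨p₁, h1, h2⟩ := fld_v C (fun i => b i 0) par
    obtain ⟨p', h3, h4⟩ := ih (fun i j => b i j.succ) p₁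
    refine ⟨p', ?_, ?_⟩
    · have e : ∀ i, C.zone (List.ofFn (b i)) = C.v (b i 0) ++ C.zone (List.ofFn (fun j => b i j.succ)) := by
        intro i
        rw [List.ofFn_succ]
        simp [Code.zone]
      simp only [e]
      rw [rep_succ, fld_append _ _ _ _ (fun i => by rw [C.v_length, C.v_length]), h1, h3]
    · rw [h4, h2, gsign, gsign, Fin.prod_univ_succ]
      ring

theorem zone_true (C : Code Q) (N : ℕ) : C.zone (List.replicate N true) = rep N (C.v true) := by
  simp [Code.zone, rep]

theorem gsign_true (g N : ℕ) : gsign Finset.univ (fun (_ : Fin g) (_ : Fin N) => true) = (-1) ^ N := by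
  simp [gsign]

theorem fld_neutral {g : ℕ} (C : Code Q) (N : ℕ) (par : Bool) :
    ∃ p', fld (rep N (C.v true)) (fun _ : Fin g => rep N (C.v true)) (true, par) = (true, p') ∧
      sg p' = sg par * (((-1) ^ C.j) ^ N * (-1) ^ N) := by
  obtain ⟨p', h1, h2⟩ := fld_zone C N (fun (_ : Fin g) (_ : Fin N) => true) par
  rw [gsign_true] at h2
  have e : (List.ofFn (fun _ : Fin N => true)) = List.replicate N true := by simp
  simp only [e, zone_true] at h1
  exact ⟨p', h1, by rw [h2]; ring⟩

theorem row_eq (C : Code Q) (N : ℕ) (b : List Bool) :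
    C.row N b = rep N (C.v true) ++ (C.zone b ++ rep N (C.v true)) := by
  rw [Code.row, blk, List.append_assoc]

theorem fld_row {g : ℕ} (C : Code Q) (N : ℕ) (b : Fin g → Fin N → Bool) :
    sg (fld (C.row N (List.replicate N true)) (fun i => C.row N (List.ofFn (b i))) (true, false)).2 =
      ((-1) ^ C.j) ^ N * gsign Finset.univ b := by
  obtain ⟨p₁, a1, a2⟩ := fld_neutral (g := g) C N false
  obtain ⟨p₂, b1, b2⟩ := fld_zone C N b p₁
  obtain ⟨p₃, c1, c2⟩ := fld_neutral (g := g) C N p₂
  simp only [row_eq, zone_true]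
  rw [fld_append _ _ (fun _ => rep N (C.v true)) _ (fun _ => rfl), a1,
    fld_append _ _ (fun i => C.zone (List.ofFn (b i))) _ (fun i => by
      rw [C.zone_length, rep_length]; simp), b1, c1, c2, b2, a2]
  have e1 : (((-1 : ℝ) ^ C.j) ^ N) * (((-1 : ℝ) ^ C.j) ^ N) = 1 := by
    rw [← mul_pow, ← mul_pow]; norm_num
  have e2 : ((-1 : ℝ) ^ N) * ((-1 : ℝ) ^ N) = 1 := by
    rw [← mul_pow]; norm_num
  have e3 : sg false = 1 := by simp [sg]
  rw [e3]
  calc 1 * (((-1 : ℝ) ^ C.j) ^ N * (-1) ^ N) * ((-1) ^ C.j) ^ N * gsign Finset.univ b *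
        (((-1) ^ C.j) ^ N * (-1) ^ N)
      = ((((-1 : ℝ) ^ C.j) ^ N) * (((-1 : ℝ) ^ C.j) ^ N)) * (((-1 : ℝ) ^ N) * ((-1 : ℝ) ^ N)) *
        (((-1) ^ C.j) ^ N * gsign Finset.univ b) := by ring
    _ = _ := by rw [e1, e2]; ring

theorem letters_rep (C : Code Q) (m : ℕ) : ∀ a ∈ rep m (C.x₁ ++ [2]), a ≠ 3 := by
  intro a ha
  simp only [rep, List.mem_flatten, List.mem_replicate] at ha
  obtain ⟨l, ⟨_, rfl⟩, ha⟩ := ha
  rw [List.mem_append] at ha
  rcases ha with ha | ha
  · rcases C.bits₁ a ha with h | h <;> rw [h] <;> decide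
  · rw [List.mem_singleton] at ha; rw [ha]; decide

theorem letters_v (C : Code Q) (b : Bool) : ∀ a ∈ C.v b, a ≠ 3 := by
  intro a ha
  unfold Code.v at ha
  rw [List.mem_append, List.mem_append] at ha
  rcases ha with (ha | ha) | ha
  · cases b
    · rcases C.bits₀ a ha with h | h <;> rw [h] <;> decide
    · rcases C.bits₁ a ha with h | h <;> rw [h] <;> decide
  · rw [List.mem_singleton] at ha; rw [ha]; decide
  · exact letters_rep C _ a ha

theorem letters_row (C : Code Q) (N : ℕ) (b : List Bool) : ∀ a ∈ C.row N b, a ≠ 3 := by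
  intro a ha
  have h1 : ∀ a ∈ rep N (C.v true), a ≠ 3 := by
    intro a ha
    simp only [rep, List.mem_flatten, List.mem_replicate] at ha
    obtain ⟨l, ⟨_, rfl⟩, ha⟩ := ha
    exact letters_v C true a ha
  rw [row_eq, List.mem_append, List.mem_append] at ha
  rcases ha with ha | ha | ha
  · exact h1 a ha
  · simp only [Code.zone, List.mem_flatten, List.mem_map] at ha
    obtain ⟨l, ⟨x, _, rfl⟩, ha⟩ := ha
    exact letters_v C x a ha
  · exact h1 a ha

/-- The language computes the generalised inner product on the code words. -/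
theorem W_mem (C : Code Q) (g N : ℕ) :
    ∃ σ : ℝ, (σ = 1 ∨ σ = -1) ∧
      ∀ b : Fin g → Fin N → Bool, C.W b ∈ theLang ↔ gsign Finset.univ b = σ := by
  have hpm : ((-1 : ℝ) ^ C.j) ^ N = 1 ∨ ((-1 : ℝ) ^ C.j) ^ N = -1 := by
    rw [← pow_mul]; exact neg_one_pow_eq_or ℝ _
  refine ⟨-(((-1 : ℝ) ^ C.j) ^ N), ?_, ?_⟩
  · rcases hpm with h | h
    · right; rw [h]
    · left; rw [h]; norm_num
  · intro b
    have e : C.W b = C.row N (List.replicate N true) ++
        (List.ofFn (fun i => C.row N (List.ofFn (b i)))).flatMap (fun R => 3 :: R) := by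
      rw [Code.W, Code.word, rowsOf]
      congr 1
      have : List.ofFn (fun i => C.row N (List.ofFn (b i))) =
          (List.ofFn (fun i => List.ofFn (b i))).map (C.row N) := by
        rw [List.map_ofFn]; rfl
      rw [this, List.flatMap_map]
    rw [e, mem_theLang_iff _ _ (letters_row C N _), fold_eq_fld]
    · simp only [List.drop_zero]
      rw [sg_eq_neg_one, fld_row]
      rcases hpm with h | h
      · rw [h, one_mul]
      · rw [h]
        constructor
        · intro h2; linarith
        · intro h2; rw [h2]; norm_num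
    · intro R hR
      simp only [List.mem_ofFn] at hR
      obtain ⟨i, rfl⟩ := hR
      refine ⟨?_, letters_row C N _⟩
      rw [C.row_length N _ (by simp), C.row_length N _ (by simp)]

end Pool.Agent.H541R2
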