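import Pool.Agent.H541R2.Count

set_option autoImplicit false

namespace Pool.Agent.H541R2

open Finset

variable {k : ℕ} {Q St : Type}

theorem conf_pos_le {α : Type} (M : Mach α k Q St) (w : List α) (t : ℕ) (i : Fin k) :
    (M.conf w t).p i ≤ w.length + 1 := by
  cases t with
  | zero => simp [Mach.conf]
  | succ t =>
    rw [conf_succ]
    induction t with
    | zero =>
      show mv _ _ _ ≤ _
      unfold mv
      have h0 : (M.conf w 0).p i = 0 := rfl
      rw [h0]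
      split_ifs <;> omega
    | succ t ih =>
      show mv _ _ _ ≤ _
      unfold mv
      rw [conf_succ]
      split_ifs <;> omega

/-- The finite set of configurations with memory contents in `S`. -/
noncomputable def cfgs [Fintype Q] (k : ℕ) (S : Finset St) (n : ℕ) : Finset (Cfg k Q St) := by
  classical
  exact ((Finset.univ : Finset Q) ×ˢ S ×ˢ Fintype.piFinset (fun _ : Fin k => Finset.range (n + 2))).image
    (fun x => ⟨x.1, x.2.1, x.2.2⟩)

theorem cfgs_card [Fintype Q] (k : ℕ) (S : Finset St) (n : ℕ) :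
    (cfgs (Q := Q) k S n).card ≤ Fintype.card Q * (S.card * (n + 2) ^ k) := by
  classical
  unfold cfgs
  refine Finset.card_image_le.trans ?_
  simp [Finset.card_product]

theorem mem_cfgs [Fintype Q] {S : Finset St} {n : ℕ} {c : Cfg k Q St} (h1 : c.s ∈ S)
    (h2 : ∀ i, c.p i ≤ n + 1) : c ∈ cfgs (Q := Q) k S n := by
  classical
  unfold cfgs
  rw [Finset.mem_image]
  refine ⟨(c.q, c.s, c.p), ?_, rfl⟩
  simp only [Finset.mem_product, Finset.mem_univ, Fintype.mem_piFinset, Finset.mem_range, true_and]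
  exact ⟨h1, fun i => by have := h2 i; omega⟩

open Classical in
/-- Half of the matrices, up to a small error, have a given sign. -/
theorem sign_card (g N : ℕ) (σ : ℝ) (hσ : σ = 1 ∨ σ = -1) :
    (2 ^ N : ℝ) ^ (g + 1) * (1 - (mu g) ^ N) / 2 ≤
      ((Finset.univ.filter (fun b : Fin (g + 1) → Fin N → Bool => gsign Finset.univ b = σ)).card : ℝ) := by
  have key := gip_disc g N Finset.univ (fun _ _ => (1 : ℝ)) (by simp) (by simp)
  simp only [Finset.prod_const_one, mul_one, Finset.card_univ, Fintype.card_fin] at key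
  have hpm : ∀ b : Fin (g + 1) → Fin N → Bool, gsign Finset.univ b = 1 ∨ gsign Finset.univ b = -1 := by
    intro b
    have := gsign_abs Finset.univ b
    exact eq_or_eq_neg_of_abs_eq this
  have e : ∑ b : Fin (g + 1) → (Fin N → Bool), σ * gsign Finset.univ b =
      2 * ((Finset.univ.filter (fun b : Fin (g + 1) → Fin N → Bool => gsign Finset.univ b = σ)).card : ℝ)
        - (2 ^ N : ℝ) ^ (g + 1) := by
    have h1 : ∀ b : Fin (g + 1) → (Fin N → Bool), σ * gsign Finset.univ b =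
        2 * (if gsign Finset.univ b = σ then (1 : ℝ) else 0) - 1 := by
      intro b
      rcases hpm b with h | h <;> rcases hσ with h' | h' <;> rw [h, h'] <;> norm_num
    simp_rw [h1]
    rw [Finset.sum_sub_distrib, ← Finset.mul_sum, Finset.card_filter, Nat.cast_sum]
    simp
  rw [← Finset.mul_sum] at e
  have h2 : |σ * ∑ b : Fin (g + 1) → (Fin N → Bool), gsign Finset.univ b| ≤
      (2 ^ N : ℝ) ^ (g + 1) * (mu g) ^ N := by
    rw [abs_mul]
    have : |σ| = 1 := by rcases hσ with h | h <;> rw [h] <;> norm_num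
    rw [this, one_mul]; exact key
  rw [e] at h2
  have h3 := (abs_le.mp h2).1
  linarith

theorem log_kappa_le (k : ℕ) {q s n : ℝ} (hq : 1 ≤ q) (hs : 1 ≤ s) (hn : 2 ≤ n) :
    Real.log (q * (s * (n + 2) ^ k) * n) ≤
      (Real.log q / Real.log 2 + 2 * k + 2) * (Real.log s + Real.log n) := by
  have hlog2 : 0 < Real.log 2 := Real.log_pos (by norm_num)
  have hlogQ : 0 ≤ Real.log q := Real.log_nonneg hq
  have hlogS : 0 ≤ Real.log s := Real.log_nonneg hs
  have hlogn : Real.log 2 ≤ Real.log n := Real.log_le_log (by norm_num) hn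
  have e : Real.log (q * (s * (n + 2) ^ k) * n) = Real.log q + (Real.log s + k * Real.log (n + 2)) +
      Real.log n := by
    rw [Real.log_mul (by positivity) (by positivity), Real.log_mul (by positivity) (by positivity),
      Real.log_mul (by positivity) (by positivity), Real.log_pow]
  have h1 : Real.log (n + 2) ≤ 2 * Real.log n := by
    have : 2 * Real.log n = Real.log (n ^ 2) := by rw [Real.log_pow]; norm_num
    rw [this]
    apply Real.log_le_log (by positivity)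
    nlinarith
  have h2 : Real.log q ≤ Real.log q / Real.log 2 * Real.log n := by
    rw [div_mul_eq_mul_div, le_div_iff₀ hlog2]
    exact mul_le_mul_of_nonneg_left hlogn hlogQ
  have h3 : (k : ℝ) * Real.log (n + 2) ≤ k * (2 * Real.log n) :=
    mul_le_mul_of_nonneg_left h1 (by positivity)
  have h4 : 0 ≤ Real.log q / Real.log 2 := by positivity
  have h5 : 0 ≤ (k : ℝ) := by positivity
  have h6 := mul_nonneg h4 hlogS
  have h7 := mul_nonneg h5 hlogS
  rw [e]
  linarith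

theorem num_aux {P m s : ℝ} (hP : 0 < P) (hm : m < 1 / 2) (hs : s < 1 / 4) :
    P * s < P * (1 - m) / 2 := by
  rw [mul_div_assoc]
  exact mul_lt_mul_of_pos_left (by linarith) hP

theorem lower_bound (L : Set (List (Fin 4)))
    (hL : ∀ (Q : Type) (C : Code Q) (g N : ℕ), 1 ≤ N → ∃ σ : ℝ, (σ = 1 ∨ σ = -1) ∧
      ∀ b : Fin g → Fin N → Bool, C.W b ∈ L ↔ gsign Finset.univ b = σ)
    (k : ℕ) (Q : Type) [Fintype Q] :
    ∃ c : ℝ, 0 < c ∧ ∀ n₀ : ℕ, ∃ n : ℕ, n₀ ≤ n ∧ ∀ (St : Type) (M : Mach (Fin 4) k Q St),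
      (∀ w : List (Fin 4), w.length = n → (w ∈ L ↔ ∃ t, (M.conf w t).q ∈ M.F)) →
      ∀ S : Finset St, (∀ w : List (Fin 4), w.length = n → ∀ t, (∀ t' < t, (M.conf w t').q ∉ M.F) →
        (M.conf w t).s ∈ S) →
      ∃ w : List (Fin 4), w.length = n ∧ w ∈ L ∧ ∀ T I : ℕ, (M.conf w T).q ∈ M.F → M.Pieces w T I →
        c * (n : ℝ) ^ 2 ≤ ((I : ℝ) + n) * (Real.log S.card + Real.log n) := by
  classical
  by_cases hQ : Nonempty Q
  swap
  · refine ⟨1, one_pos, fun n₀ => ⟨n₀, le_rfl, fun St M => ?_⟩⟩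
    exact absurd ⟨M.q₀⟩ hQ
  obtain ⟨C⟩ := exists_code Q
  obtain ⟨V, hV⟩ : ∃ V, V = (C.v true).length := ⟨_, rfl⟩
  have hV1 : 1 ≤ V := by rw [hV]; exact C.v_pos true
  obtain ⟨μ', hμ'⟩ : ∃ μ' : ℝ, μ' = max (mu k) (1 / 2) := ⟨_, rfl⟩
  have hμ'1 : μ' < 1 := by rw [hμ']; exact max_lt (mu_lt_one k) (by norm_num)
  have hμ'0 : 0 < μ' := by rw [hμ']; exact lt_of_lt_of_le (by norm_num) (le_max_right _ _)
  obtain ⟨lam, hlam⟩ : ∃ lam : ℝ, lam = -Real.log μ' := ⟨_, rfl⟩
  have hlam0 : 0 < lam := by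
    have := Real.log_neg hμ'0 hμ'1
    linarith
  obtain ⟨C4, hC4⟩ : ∃ C4 : ℝ, C4 = (k + 2) * (3 * V + 1) := ⟨_, rfl⟩
  have hC40 : 0 < C4 := by rw [hC4]; positivity
  obtain ⟨C2, hC2⟩ : ∃ C2 : ℝ, C2 = Real.log (Fintype.card Q) / Real.log 2 + 2 * k + 2 := ⟨_, rfl⟩
  have hlog2 : 0 < Real.log 2 := Real.log_pos (by norm_num)
  have hcardQ : (1 : ℝ) ≤ Fintype.card Q := by
    exact_mod_cast Fintype.card_pos
  have hlogQ : 0 ≤ Real.log (Fintype.card Q) := Real.log_nonneg hcardQ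
  have hC20 : 0 < C2 := by rw [hC2]; positivity
  refine ⟨lam / (2 * C4 ^ 2 * C2), by positivity, fun n₀ => ?_⟩
  -- choose `N`
  have hev : ∀ᶠ N : ℕ in Filter.atTop, (Real.sqrt μ') ^ N < 1 / 4 ∧ μ' ^ N < 1 / 2 ∧
      n₀ ≤ N ∧ 2 ≤ N := by
    have hs : Real.sqrt μ' < 1 := by
      rw [Real.sqrt_lt' one_pos]; simpa using hμ'1
    have t1 := tendsto_pow_atTop_nhds_zero_of_lt_one (Real.sqrt_nonneg μ') hs
    have t2 := tendsto_pow_atTop_nhds_zero_of_lt_one hμ'0.le hμ'1
    filter_upwards [t1.eventually (gt_mem_nhds (show (0:ℝ) < 1/4 by norm_num)),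
      t2.eventually (gt_mem_nhds (show (0:ℝ) < 1/2 by norm_num)),
      Filter.eventually_ge_atTop n₀, Filter.eventually_ge_atTop 2] with N a1 a2 a3 a4
    exact ⟨a1, a2, a3, a4⟩
  obtain ⟨N, hN1, hN2, hN3, hN4⟩ := hev.exists
  obtain ⟨n, hn⟩ : ∃ n, n = (k + 2) * (3 * N * V + 1) - 1 := ⟨_, rfl⟩
  have hn1 : n + 1 = (k + 2) * (3 * N * V + 1) := by
    have : 1 ≤ (k + 2) * (3 * N * V + 1) := Nat.one_le_iff_ne_zero.mpr (by positivity)
    omega
  have hnN : N ≤ n := by
    have h1 : 3 * N * V + 1 ≤ (k + 2) * (3 * N * V + 1) := Nat.le_mul_of_pos_left _ (by omega)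
    have h2 : N ≤ 3 * N * V := by nlinarith
    omega
  refine ⟨n, by omega, ?_⟩
  intro St M hM S hS
  have hlenW : ∀ b : Fin (k + 1) → Fin N → Bool, (C.W b).length = n := by
    intro b
    have := C.W_length b
    rw [← hV] at this
    have e : (k + 1 + 1) * (3 * N * V + 1) = (k + 2) * (3 * N * V + 1) := by ring
    omega
  obtain ⟨σ, hσ, hWL⟩ := hL Q C (k + 1) N (by omega)
  have hσ1 : |σ| = 1 := by rcases hσ with h | h <;> rw [h] <;> norm_num
  obtain ⟨K, hK⟩ : ∃ K, K = cfgs (Q := Q) k S n := ⟨_, rfl⟩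
  -- the memory set is nonempty
  have hS1 : 1 ≤ S.card := by
    apply Finset.card_pos.mpr
    have b0 : Fin (k + 1) → Fin N → Bool := fun _ _ => true
    exact ⟨_, hS (C.W b0) (hlenW b0) 0 (by intro t' ht'; omega)⟩
  have hS1' : (1 : ℝ) ≤ S.card := by exact_mod_cast hS1
  have hn2 : (2 : ℝ) ≤ n := by exact_mod_cast (hN4.trans hnN)
  have hlogS : 0 ≤ Real.log S.card := Real.log_nonneg hS1'
  have hlogn : Real.log 2 ≤ Real.log n := Real.log_le_log (by norm_num) hn2
  have hpk : (1 : ℝ) ≤ ((n : ℝ) + 2) ^ k := one_le_pow₀ (by linarith)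
  obtain ⟨κ, hκ⟩ : ∃ κ : ℝ, κ = (Fintype.card Q : ℝ) * (S.card * ((n : ℝ) + 2) ^ k) * n := ⟨_, rfl⟩
  have hκ0 : (1 : ℝ) ≤ (Fintype.card Q : ℝ) * (S.card * ((n : ℝ) + 2) ^ k) := by
    have h2 : (1 : ℝ) ≤ S.card * ((n : ℝ) + 2) ^ k := by nlinarith
    nlinarith
  have hκK : (K.card : ℝ) ≤ κ := by
    have := cfgs_card (Q := Q) k S n
    rw [← hK] at this
    have h2 : (K.card : ℝ) ≤ ((Fintype.card Q * (S.card * (n + 2) ^ k) : ℕ) : ℝ) := by exact_mod_cast this
    rw [hκ]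
    push_cast at h2
    nlinarith
  have hκ2 : 2 ≤ κ := by nlinarith
  have hlogκ : 0 < Real.log κ := Real.log_pos (by linarith)
  have hlogκle : Real.log κ ≤ C2 * (Real.log S.card + Real.log n) := by
    rw [hκ, hC2]
    exact log_kappa_le k hcardQ hS1' hn2
  -- number of phases
  obtain ⟨R, hR1, hR2⟩ : ∃ R : ℕ, (R : ℝ) * Real.log κ ≤ N * lam / 2 ∧
      (N * lam / 2 : ℝ) ≤ (R + 1) * Real.log κ := by
    refine ⟨⌊(N * lam / 2) / Real.log κ⌋₊, ?_, ?_⟩
    · have := Nat.floor_le (a := (N * lam / 2) / Real.log κ) (by positivity)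
      rwa [le_div_iff₀ hlogκ] at this
    · have := (Nat.lt_floor_add_one ((N * lam / 2) / Real.log κ)).le
      rwa [div_le_iff₀ hlogκ] at this
  -- a good matrix exists
  have hgood : ∃ b : Fin (k + 1) → Fin N → Bool, gsign Finset.univ b = σ ∧
      ¬ AccIn C M K R (M.conf (C.W b) 0) b := by
    by_contra hcon0
    have hcon : ∀ b : Fin (k + 1) → Fin N → Bool, gsign Finset.univ b = σ →
        AccIn C M K R (M.conf (C.W b) 0) b := by
      intro b hb
      by_contra hh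
      exact hcon0 ⟨b, hb, hh⟩
    obtain ⟨A, hA⟩ : ∃ A : Finset (Fin (k + 1) → Fin N → Bool),
        A = Finset.univ.filter (fun b => gsign Finset.univ b = σ) := ⟨_, rfl⟩
    have h5 : (A.card : ℝ) ≤ (K.card : ℝ) ^ R * ((2 ^ N : ℝ) ^ (k + 1) * (mu k) ^ N) := by
      apply accIn_card_univ C (by omega) M K σ hσ1 R ⟨M.q₀, M.s₀, fun _ => 0⟩
      · intro b hacc
        rw [← hWL b, hM _ (hlenW b)]
        exact run_of_accIn C R 0 hacc
      · intro b hb
        rw [hA, Finset.mem_filter] at hb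
        exact hcon b hb.2
    have h4 : (2 ^ N : ℝ) ^ (k + 1) * (1 - (mu k) ^ N) / 2 ≤ (A.card : ℝ) := by
      rw [hA]; convert sign_card k N σ hσ
    have hmu0 := mu_nonneg k
    have h6 : (mu k) ^ N ≤ μ' ^ N := pow_le_pow_left₀ hmu0 (by rw [hμ']; exact le_max_left _ _) N
    have h7 : (K.card : ℝ) ^ R ≤ Real.exp (N * lam / 2) := by
      calc (K.card : ℝ) ^ R ≤ κ ^ R := pow_le_pow_left₀ (by positivity) hκK R
        _ = Real.exp (R * Real.log κ) := by
          rw [← Real.log_pow, Real.exp_log (by positivity)]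
        _ ≤ _ := Real.exp_le_exp.mpr hR1
    have h8 : Real.exp (N * lam / 2) * μ' ^ N = (Real.sqrt μ') ^ N := by
      have e1 : Real.sqrt μ' = Real.exp (-lam / 2) := by
        rw [Real.sqrt_eq_iff_mul_self_eq hμ'0.le (Real.exp_pos _).le, ← Real.exp_add]
        have : -lam / 2 + -lam / 2 = Real.log μ' := by rw [hlam]; ring
        rw [this, Real.exp_log hμ'0]
      have e2 : μ' = Real.exp (-lam) := by rw [hlam, neg_neg, Real.exp_log hμ'0]
      rw [e1, ← Real.exp_nat_mul]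
      nth_rewrite 1 [e2]
      rw [← Real.exp_nat_mul, ← Real.exp_add]
      congr 1
      ring
    obtain ⟨P, hP⟩ : ∃ P : ℝ, P = (2 ^ N : ℝ) ^ (k + 1) := ⟨_, rfl⟩
    have hP0 : 0 < P := by rw [hP]; positivity
    rw [← hP] at h4 h5
    have h9 : (K.card : ℝ) ^ R * (P * (mu k) ^ N) ≤ P * (Real.sqrt μ') ^ N := by
      calc (K.card : ℝ) ^ R * (P * (mu k) ^ N)
          ≤ Real.exp (N * lam / 2) * (P * μ' ^ N) := by gcongr
        _ = P * (Real.exp (N * lam / 2) * μ' ^ N) := by ring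
        _ = _ := by rw [h8]
    exact absurd (h4.trans (h5.trans h9)) (not_le.mpr (num_aux hP0 (lt_of_le_of_lt h6 hN2) hN1))
  obtain ⟨b, hb, hacc⟩ := hgood
  refine ⟨C.W b, hlenW b, (hWL b).mpr hb, ?_⟩
  intro T I hT hI
  -- the first accepting time
  have hex : ∃ t, (M.conf (C.W b) t).q ∈ M.F := ⟨T, hT⟩
  have hT₀ := Nat.find_spec hex
  have hmin : ∀ t < Nat.find hex, (M.conf (C.W b) t).q ∉ M.F := fun t ht => Nat.find_min hex ht
  have hle : Nat.find hex ≤ T := Nat.find_min' hex hT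
  have hbusy : N * R ≤ I := by
    by_contra hlt
    rw [not_le] at hlt
    apply hacc
    obtain ⟨T', hT'⟩ := ph_of_pieces hT₀ hmin hle hI
    obtain ⟨e, he⟩ := Nat.exists_eq_add_of_le hlt.le
    have hT'' : Ph M (C.W b) T' (N * R) (M.conf (C.W b) 0) (M.conf (C.W b) (Nat.find hex)) := by
      rw [he]
      clear he
      induction e with
      | zero => exact hT'
      | succ e ihe => exact ihe.mono hT₀
    refine accIn_of_ph C ?_ hT₀ R 0 T' (by intro t' ht'; omega) hT''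
    intro t ht
    rw [hK]
    apply mem_cfgs
    · exact hS _ (hlenW b) t ht
    · intro i
      have := conf_pos_le M (C.W b) t i
      rw [hlenW b] at this
      exact this
  have hnC : (n : ℝ) ≤ C4 * N := by
    have h1 : (n : ℝ) + 1 = (k + 2) * (3 * N * V + 1) := by exact_mod_cast hn1
    have h2 : (1 : ℝ) ≤ N := by
      have : 1 ≤ N := by omega
      exact_mod_cast this
    have h3 : ((k : ℝ) + 2) * (3 * N * V + 1) ≤ (k + 2) * (3 * N * V + N) := by gcongr
    have h4 : ((k : ℝ) + 2) * (3 * N * V + N) = C4 * N := by rw [hC4]; ring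
    linarith
  have hsum : (N : ℝ) * (R + 1) ≤ (I : ℝ) + n := by
    have h1 : ((N * R : ℕ) : ℝ) ≤ (I : ℝ) := by exact_mod_cast hbusy
    have h2 : (N : ℝ) ≤ n := by exact_mod_cast hnN
    push_cast at h1
    linarith
  have hn0 : (0 : ℝ) ≤ n := by positivity
  have hNpos : (0 : ℝ) ≤ N := by positivity
  have hn2le : (n : ℝ) ^ 2 ≤ C4 ^ 2 * N ^ 2 := by
    rw [← mul_pow]
    exact pow_le_pow_left₀ hn0 hnC 2
  have hlsum : 0 ≤ Real.log S.card + Real.log n := by linarith
  calc lam / (2 * C4 ^ 2 * C2) * (n : ℝ) ^ 2 ≤ lam / (2 * C4 ^ 2 * C2) * (C4 ^ 2 * N ^ 2) := by gcongr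
    _ = N * (N * lam / 2) / C2 := by field_simp
    _ ≤ N * ((R + 1) * Real.log κ) / C2 := by gcongr
    _ = (N * (R + 1)) * Real.log κ / C2 := by ring
    _ ≤ ((I : ℝ) + n) * (C2 * (Real.log S.card + Real.log n)) / C2 := by
        gcongr
    _ = ((I : ℝ) + n) * (Real.log S.card + Real.log n) := by field_simp

end Pool.Agent.H541R2
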