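import Mathlib

set_option autoImplicit false

namespace Pool.Agent.H541R2

/-- The symbol read by a head at position `p` on the input word `w`: whether the head is at the left end
(position `0`), and the letter number `p` if there is one. Position `w.length + 1` is the right end. -/
def rd {α : Type} (w : List α) (p : ℕ) : Bool × Option α := (decide (p = 0), w[p - 1]?)

/-- The position of a head after the move `d` from position `p` (`0` left, `1` stay, `2` right) on an
input of length `n`. -/
def mv (n : ℕ) (d : Fin 3) (p : ℕ) : ℕ :=
  if d = 0 then p - 1 else if d = 1 then p else min (p + 1) (n + 1)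

/-- A deterministic automaton with `k` two-way input heads, finite control `Q` and a memory with contents
in `St`. In one step, depending on the state, the whole memory contents and the symbols under the heads, it
changes state, replaces the memory contents by new ones and moves its heads. -/
structure Mach (α : Type) (k : ℕ) (Q St : Type) where
  δ : Q → St → (Fin k → Bool × Option α) → Q × St × (Fin k → Fin 3)
  q₀ : Q
  s₀ : St
  F : Set Q

/-- A configuration: state, memory contents, head positions. -/
@[ext] structure Cfg (k : ℕ) (Q St : Type) where
  q : Q
  s : St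
  p : Fin k → ℕ

variable {α : Type} {k : ℕ} {Q St : Type}

/-- One step. -/
def Mach.step (M : Mach α k Q St) (w : List α) (c : Cfg k Q St) : Cfg k Q St :=
  ⟨(M.δ c.q c.s (fun i => rd w (c.p i))).1, (M.δ c.q c.s (fun i => rd w (c.p i))).2.1,
    fun i => mv w.length ((M.δ c.q c.s (fun i => rd w (c.p i))).2.2 i) (c.p i)⟩

/-- The configuration at time `t`. -/
def Mach.conf (M : Mach α k Q St) (w : List α) (t : ℕ) : Cfg k Q St :=
  (M.step w)^[t] ⟨M.q₀, M.s₀, fun _ => 0⟩

/-- The step from `c` to `c'` is busy apart from head `h`: it changes the memory contents or the position of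
a head other than `h`. -/
def Busy (h : Fin k) (c c' : Cfg k Q St) : Prop := c'.s ≠ c.s ∨ ∃ i, i ≠ h ∧ c'.p i ≠ c.p i

/-- The run up to time `T` splits into `I` pieces, each of which is a single step or a piece during which at
most one head moves and the memory does not change. -/
def Mach.Pieces (M : Mach α k Q St) (w : List α) (T I : ℕ) : Prop :=
  ∃ t : ℕ → ℕ, t 0 = 0 ∧ t I = T ∧ ∀ j < I, t j ≤ t (j + 1) ∧
    (t (j + 1) = t j + 1 ∨
      ∃ h : Fin k, ∀ s, t j ≤ s → s < t (j + 1) → ¬ Busy h (M.conf w s) (M.conf w (s + 1)))

end Pool.Agent.H541R2
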