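import Pool.Agent.H541R2.Model
import Pool.Agent.H541R2.Behave

set_option autoImplicit false

namespace Pool.Agent.H541R2

variable {α : Type} {k : ℕ} {Q St : Type}

open Classical in
/-- The local table of head `h` when the rest of the configuration does not change. -/
noncomputable def tbl (M : Mach α k Q St) (w : List α) (h : Fin k) (c : Cfg k Q St) : Table Q α :=
  fun q x =>
    if q ∈ M.F then none
    else
      if (M.δ q c.s (Function.update (fun i => rd w (c.p i)) h x)).2.1 ≠ c.s ∨
          ∃ i, i ≠ h ∧ mv w.length ((M.δ q c.s (Function.update (fun i => rd w (c.p i)) h x)).2.2 i)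
            (c.p i) ≠ c.p i then none
      else some ((M.δ q c.s (Function.update (fun i => rd w (c.p i)) h x)).1,
        (M.δ q c.s (Function.update (fun i => rd w (c.p i)) h x)).2.2 h)

theorem update_rd (w : List α) (h : Fin k) (c : Cfg k Q St) :
    Function.update (fun i => rd w (c.p i)) h (rd w (c.p h)) = fun i => rd w (c.p i) :=
  Function.update_eq_self h _

theorem tbl_some {M : Mach α k Q St} {w : List α} {h : Fin k} {c : Cfg k Q St} {q' : Q} {m : Fin 3}
    (hc : tbl M w h c c.q (rd w (c.p h)) = some (q', m)) :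
    c.q ∉ M.F ∧ M.step w c = ⟨q', c.s, Function.update c.p h (mv w.length m (c.p h))⟩ ∧
      ¬ Busy h c (M.step w c) := by
  unfold tbl at hc
  rw [update_rd] at hc
  by_cases hF : c.q ∈ M.F
  · simp [hF] at hc
  rw [if_neg hF] at hc
  split_ifs at hc with hb
  simp only [Option.some.injEq, Prod.mk.injEq] at hc
  rw [not_or, not_exists] at hb
  have hb1 := not_not.mp hb.1
  have hb2 : ∀ i, i ≠ h → mv w.length ((M.δ c.q c.s fun i => rd w (c.p i)).2.2 i) (c.p i) = c.p i := by
    intro i hi; by_contra hh; exact hb.2 i ⟨hi, hh⟩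
  refine ⟨hF, ?_, ?_⟩
  · ext i
    · exact hc.1
    · exact hb1
    · by_cases hi : i = h
      · subst hi
        simp [Mach.step, hc.2]
      · show mv w.length _ (c.p i) = Function.update c.p h _ i
        rw [Function.update_of_ne hi]
        exact hb2 i hi
  · rintro (h1 | ⟨i, hi, h1⟩)
    · exact h1 hb1
    · exact h1 (hb2 i hi)

theorem tbl_none {M : Mach α k Q St} {w : List α} {h : Fin k} {c : Cfg k Q St}
    (hc : tbl M w h c c.q (rd w (c.p h)) = none) :
    c.q ∈ M.F ∨ Busy h c (M.step w c) := by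
  unfold tbl at hc
  rw [update_rd] at hc
  by_cases hF : c.q ∈ M.F
  · exact Or.inl hF
  rw [if_neg hF] at hc
  split_ifs at hc with hb
  exact Or.inr hb

theorem tbl_ne_none {M : Mach α k Q St} {w : List α} {h : Fin k} {c : Cfg k Q St}
    (h1 : c.q ∉ M.F) (h2 : ¬ Busy h c (M.step w c)) :
    ∃ q' m, tbl M w h c c.q (rd w (c.p h)) = some (q', m) := by
  cases hc : tbl M w h c c.q (rd w (c.p h)) with
  | none => rcases tbl_none hc with h3 | h3 <;> contradiction
  | some x => exact ⟨x.1, x.2, rfl⟩

theorem tbl_congr {M : Mach α k Q St} {w w' : List α} {h : Fin k} {c c' : Cfg k Q St}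
    (hl : w.length = w'.length) (hs : c.s = c'.s) (hp : ∀ i, i ≠ h → c.p i = c'.p i)
    (hr : ∀ i, i ≠ h → rd w (c.p i) = rd w' (c'.p i)) :
    tbl M w h c = tbl M w' h c' := by
  funext q x
  have e : (Function.update (fun i => rd w (c.p i)) h x) =
      (Function.update (fun i => rd w' (c'.p i)) h x) := by
    funext i
    by_cases hi : i = h
    · subst hi; simp
    · simp [Function.update_of_ne hi, hr i hi]
  have e2 : (∃ i, i ≠ h ∧ mv w.length ((M.δ q c.s (Function.update (fun i => rd w (c.p i)) h x)).2.2 i)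
            (c.p i) ≠ c.p i) ↔
      (∃ i, i ≠ h ∧ mv w'.length ((M.δ q c'.s (Function.update (fun i => rd w' (c'.p i)) h x)).2.2 i)
            (c'.p i) ≠ c'.p i) := by
    constructor
    · rintro ⟨i, hi, h1⟩; exact ⟨i, hi, by rw [← hp i hi, ← hl, ← hs, ← e]; exact h1⟩
    · rintro ⟨i, hi, h1⟩; exact ⟨i, hi, by rw [hp i hi, hl, hs, e]; exact h1⟩
  unfold tbl
  rw [e, ← hs] at *
  by_cases hF : q ∈ M.F
  · rw [if_pos hF, if_pos hF]
  rw [if_neg hF, if_neg hF]
  by_cases hc : (M.δ q c.s (Function.update (fun i => rd w' (c'.p i)) h x)).2.1 ≠ c.s ∨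
          ∃ i, i ≠ h ∧ mv w.length ((M.δ q c.s (Function.update (fun i => rd w' (c'.p i)) h x)).2.2 i)
            (c.p i) ≠ c.p i
  · rw [if_pos hc, if_pos (by rw [← e2]; exact hc)]
  · rw [if_neg hc, if_neg (by rw [← e2]; exact hc)]

/-- Local paths inside a segment. -/
inductive LR (τ : Table Q α) (y : List α) : Q → ℕ → Q → ℕ → Prop
  | refl (q : Q) (i : ℕ) : LR τ y q i q i
  | step (q : Q) (i : ℕ) (c : α) (q' : Q) (m : Fin 3) (r : Q) (j : ℕ) :
      1 ≤ i → y[i - 1]? = some c → τ q (false, some c) = some (q', m) →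
      LR τ y q' (i + m.val - 1) r j → LR τ y q i r j

theorem Esc.toLR {τ : Table Q α} {y : List α} {q : Q} {i : ℕ} {s : Bool} {r : Q}
    (h : Esc τ y q i s r) : LR τ y q i r (if s then y.length + 1 else 0) := by
  induction h with
  | outL q => exact LR.refl _ _
  | outR q => exact LR.refl _ _
  | step q i c q' m s r h1 h2 h3 _ ih => exact LR.step q i c q' m r _ h1 h2 h3 ih

theorem mv_inside {n p : ℕ} (m : Fin 3) (hn : p ≤ n) : mv n m p = p + m.val - 1 := by
  unfold mv
  fin_cases m
  · simp
  · simp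
  · simp; omega

theorem rd_seg {U y U' : List α} {i : ℕ} {c : α} (h1 : 1 ≤ i) (h2 : y[i - 1]? = some c) :
    rd (U ++ y ++ U') (U.length + i) = (false, some c) := by
  unfold rd
  have hlt : i - 1 < y.length := by
    by_contra hlt
    rw [List.getElem?_eq_none (by omega)] at h2
    cases h2
  have e1 : decide (U.length + i = 0) = false := by simp; omega
  rw [e1, List.getElem?_append_left (by rw [List.length_append]; omega),
    List.getElem?_append_right (by omega)]
  have : U.length + i - 1 - U.length = i - 1 := by omega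
  rw [this, h2]

theorem seg_le {U y U' : List α} {i : ℕ} {c : α} (h1 : 1 ≤ i) (h2 : y[i - 1]? = some c) :
    U.length + i ≤ (U ++ y ++ U').length := by
  have hlt : i - 1 < y.length := by
    by_contra hlt
    rw [List.getElem?_eq_none (by omega)] at h2
    cases h2
  simp only [List.length_append]; omega

/-- The configuration `c` with the state and the position of head `h` replaced. -/
def Cfg.set (c : Cfg k Q St) (h : Fin k) (q : Q) (p : ℕ) : Cfg k Q St :=
  ⟨q, c.s, Function.update c.p h p⟩

theorem Cfg.set_set (c : Cfg k Q St) (h : Fin k) (q q' : Q) (p p' : ℕ) :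
    (c.set h q p).set h q' p' = c.set h q' p' := by
  simp [Cfg.set]

theorem Cfg.set_self (c : Cfg k Q St) (h : Fin k) : c.set h c.q (c.p h) = c := by
  simp [Cfg.set]

theorem tbl_set (M : Mach α k Q St) (w : List α) (h : Fin k) (c : Cfg k Q St) (q : Q) (p : ℕ) :
    tbl M w h (c.set h q p) = tbl M w h c := by
  refine tbl_congr rfl (by rfl) ?_ ?_
  · intro i hi; simp [Cfg.set, Function.update_of_ne hi]
  · intro i hi; simp [Cfg.set, Function.update_of_ne hi]

theorem step_seg {M : Mach α k Q St} {U y U' : List α} {h : Fin k} (c : Cfg k Q St) {q : Q} {i : ℕ} {a : α}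
    {q' : Q} {m : Fin 3}
    (h1 : 1 ≤ i) (h2 : y[i - 1]? = some a)
    (h3 : tbl M (U ++ y ++ U') h c q (false, some a) = some (q', m)) :
    q ∉ M.F ∧ M.step (U ++ y ++ U') (c.set h q (U.length + i)) = c.set h q' (U.length + (i + m.val - 1)) ∧
      ¬ Busy h (c.set h q (U.length + i)) (M.step (U ++ y ++ U') (c.set h q (U.length + i))) := by
  have hp : (c.set h q (U.length + i)).p h = U.length + i := by simp [Cfg.set]
  have hq : (c.set h q (U.length + i)).q = q := rfl
  have h4 : tbl M (U ++ y ++ U') h (c.set h q (U.length + i)) (c.set h q (U.length + i)).q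
      (rd (U ++ y ++ U') ((c.set h q (U.length + i)).p h)) = some (q', m) := by
    rw [hp, rd_seg h1 h2, tbl_set]; exact h3
  obtain ⟨a1, a2, a3⟩ := tbl_some h4
  refine ⟨a1, ?_, a3⟩
  rw [a2, hp, mv_inside m (seg_le h1 h2)]
  have : U.length + i + m.val - 1 = U.length + (i + m.val - 1) := by omega
  rw [this]
  simp [Cfg.set]

/-- The machine stops at `c` from the point of view of head `h`: it accepts or the next step is busy. -/
def Stop (M : Mach α k Q St) (w : List α) (h : Fin k) (c : Cfg k Q St) : Prop :=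
  c.q ∈ M.F ∨ Busy h c (M.step w c)

/-- A solo run of head `h` of length `T` from `c` to `d`. -/
def Solo (M : Mach α k Q St) (w : List α) (h : Fin k) : ℕ → Cfg k Q St → Cfg k Q St → Prop
  | 0, c, d => d = c
  | (T + 1), c, d => c.q ∉ M.F ∧ ¬ Busy h c (M.step w c) ∧ Solo M w h T (M.step w c) d

theorem LR.forward {M : Mach α k Q St} {U y U' : List α} {h : Fin k} (c : Cfg k Q St)
    {d : Cfg k Q St} (hd : Stop M (U ++ y ++ U') h d) {q r : Q} {i j : ℕ}
    (hL : LR (tbl M (U ++ y ++ U') h c) y q i r j) :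
    ∀ T, Solo M (U ++ y ++ U') h T (c.set h q (U.length + i)) d →
    ∃ T₂, T₂ ≤ T ∧ (i ≠ j → T₂ < T) ∧ Solo M (U ++ y ++ U') h T₂ (c.set h r (U.length + j)) d := by
  induction hL with
  | refl q i => intro T hT; exact ⟨T, le_rfl, fun h => absurd rfl h, hT⟩
  | step q i a q' m r j h1 h2 h3 _ ih =>
    intro T hT
    obtain ⟨a1, a2, a3⟩ := step_seg c h1 h2 h3
    cases T with
    | zero =>
      have hT' : d = c.set h q (U.length + i) := hT
      subst hT'
      rcases hd with h4 | h4 <;> contradiction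
    | succ T =>
      obtain ⟨h4, h6, h7⟩ := hT
      rw [a2] at h7
      obtain ⟨T₂, b1, b2, b3⟩ := ih T h7
      exact ⟨T₂, by omega, fun _ => by omega, b3⟩

theorem LR.backward {M : Mach α k Q St} {U y U' : List α} {h : Fin k} (c : Cfg k Q St)
    {d : Cfg k Q St} {q r : Q} {i j : ℕ} (hL : LR (tbl M (U ++ y ++ U') h c) y q i r j) :
    ∀ T₂, Solo M (U ++ y ++ U') h T₂ (c.set h r (U.length + j)) d →
    ∃ T, Solo M (U ++ y ++ U') h T (c.set h q (U.length + i)) d := by
  induction hL with
  | refl q i => intro T hT; exact ⟨T, hT⟩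
  | step q i a q' m r j h1 h2 h3 _ ih =>
    intro T hT
    obtain ⟨a1, a2, a3⟩ := step_seg c h1 h2 h3
    obtain ⟨T₂, b1⟩ := ih T hT
    rw [← a2] at b1
    exact ⟨T₂ + 1, a1, a3, b1⟩

/-- Inside a segment the head leaves the segment or stops inside. -/
theorem esc_or_stuck {M : Mach α k Q St} {U y U' : List α} {h : Fin k} (c : Cfg k Q St)
    {d : Cfg k Q St} (hd : Stop M (U ++ y ++ U') h d) : ∀ T q i, 1 ≤ i → i ≤ y.length →
    Solo M (U ++ y ++ U') h T (c.set h q (U.length + i)) d →
    (∃ s r, Esc (tbl M (U ++ y ++ U') h c) y q i s r) ∨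
    (∃ r j, 1 ≤ j ∧ j ≤ y.length ∧ LR (tbl M (U ++ y ++ U') h c) y q i r j ∧
      d = c.set h r (U.length + j)) := by
  intro T
  induction T with
  | zero =>
    intro q i h1 h2 hT
    exact Or.inr ⟨q, i, h1, h2, LR.refl _ _, hT⟩
  | succ T ih =>
    intro q i h1 h2 hT
    obtain ⟨h4, h6, h7⟩ := hT
    obtain ⟨q', m, h8⟩ := tbl_ne_none h4 h6
    have hp : (c.set h q (U.length + i)).p h = U.length + i := by simp [Cfg.set]
    have hq : (c.set h q (U.length + i)).q = q := rfl
    obtain ⟨a, ha⟩ : ∃ a, y[i - 1]? = some a := by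
      rw [List.getElem?_eq_getElem (by omega)]; exact ⟨_, rfl⟩
    rw [hp, rd_seg h1 ha, tbl_set, hq] at h8
    obtain ⟨a1, a2, a3⟩ := step_seg c h1 ha h8
    rw [a2] at h7
    have hm := m.isLt
    by_cases h0 : i + m.val - 1 = 0
    · left
      refine ⟨false, q', Esc.step q i a q' m _ _ h1 ha h8 ?_⟩
      rw [h0]; exact Esc.outL _
    · by_cases hl : i + m.val - 1 ≤ y.length
      · rcases ih q' (i + m.val - 1) (by omega) hl h7 with ⟨s, r, b⟩ | ⟨r, j, b1, b2, b3, b4⟩
        · exact Or.inl ⟨s, r, Esc.step q i a q' m _ _ h1 ha h8 b⟩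
        · exact Or.inr ⟨r, j, b1, b2, LR.step q i a q' m _ _ h1 ha h8 b3, b4⟩
      · left
        refine ⟨true, q', Esc.step q i a q' m _ _ h1 ha h8 ?_⟩
        have : i + m.val - 1 = y.length + 1 := by omega
        rw [this]; exact Esc.outR _

theorem rd_outside {A Z Z' B : List α} (hA : A ≠ []) (hZ : Z.length = Z'.length) {p : ℕ}
    (hp : p ≤ A.length ∨ A.length + Z.length + 1 ≤ p) :
    rd (A ++ Z ++ B) p = rd (A ++ Z' ++ B) p := by
  have hA' : 0 < A.length := List.length_pos_iff.mpr hA
  unfold rd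
  congr 1
  rcases hp with hp | hp
  · rw [List.append_assoc, List.append_assoc, List.getElem?_append_left (by omega),
      List.getElem?_append_left (by omega)]
  · rw [List.getElem?_append_right (by rw [List.length_append]; omega),
      List.getElem?_append_right (by rw [List.length_append]; omega)]
    simp only [List.length_append, hZ]

theorem mv_le (n : ℕ) (m : Fin 3) (p : ℕ) : mv n m p ≤ p + 1 := by
  unfold mv; split_ifs <;> omega

theorem le_mv {n : ℕ} (m : Fin 3) {p a : ℕ} (ha : a ≤ n + 1) (hp : a + 1 ≤ p) : a ≤ mv n m p := by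
  unfold mv; split_ifs <;> omega

end Pool.Agent.H541R2
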