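import Pool.Agent.H541R2.Sim

set_option autoImplicit false

namespace Pool.Agent.H541R2

variable {α : Type} {k : ℕ} {Q St : Type}

/-- The list `v^l ++ Z ++ v^r`. -/
def blk (v Z : List α) (l r : ℕ) : List α := rep l v ++ Z ++ rep r v

theorem blk_length (v Z : List α) (l r : ℕ) :
    (blk v Z l r).length = l * v.length + Z.length + r * v.length := by
  simp [blk, rep_length, add_assoc]

theorem blk_left' (U U' v Z : List α) (l r : ℕ) :
    U ++ blk v Z (l + 1) r ++ U' = U ++ v ++ (blk v Z l r ++ U') := by
  simp [blk, rep_succ, List.append_assoc]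

theorem blk_right' (U U' v Z : List α) (l r : ℕ) :
    U ++ blk v Z l (r + 1) ++ U' = (U ++ blk v Z l r) ++ v ++ U' := by
  simp [blk, rep_succ', List.append_assoc]

theorem blk_both (U U' v Z : List α) (l r : ℕ) :
    U ++ blk v Z (l + 1) (r + 1) ++ U' = (U ++ v) ++ blk v Z l r ++ (v ++ U') := by
  simp [blk, rep_succ, List.append_assoc]
  rw [← List.append_assoc (rep r v), ← rep_succ', rep_succ, List.append_assoc]

theorem blk_mid (U U' v Z : List α) (l r : ℕ) :
    U ++ blk v Z l r ++ U' = (U ++ rep l v) ++ Z ++ (rep r v ++ U') := by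
  simp [blk, List.append_assoc]

theorem rd_blk {U U' v Z Z' : List α} {l r : ℕ} (hU : U ≠ []) (hZ : Z.length = Z'.length) {p : ℕ}
    (hp : p ≤ U.length + l * v.length ∨ U.length + l * v.length + Z.length + 1 ≤ p) :
    rd (U ++ blk v Z l r ++ U') p = rd (U ++ blk v Z' l r ++ U') p := by
  rw [blk_mid, blk_mid]
  apply rd_outside
  · intro h; apply hU; exact (List.append_eq_nil_iff.mp h).1
  · exact hZ
  · rw [List.length_append, rep_length]; exact hp

theorem len_blk {U U' v Z Z' : List α} {l r : ℕ} (hZ : Z.length = Z'.length) :
    (U ++ blk v Z l r ++ U').length = (U ++ blk v Z' l r ++ U').length := by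
  simp [blk, hZ]

theorem step_blk {M : Mach α k Q St} {U U' v Z Z' : List α} {l r : ℕ} (hU : U ≠ [])
    (hZ : Z.length = Z'.length) {c : Cfg k Q St}
    (hA : ∀ i, c.p i ≤ U.length + l * v.length ∨ U.length + l * v.length + Z.length + 1 ≤ c.p i) :
    M.step (U ++ blk v Z l r ++ U') c = M.step (U ++ blk v Z' l r ++ U') c := by
  have e : (fun i => rd (U ++ blk v Z l r ++ U') (c.p i)) =
      fun i => rd (U ++ blk v Z' l r ++ U') (c.p i) := by
    funext i
    exact rd_blk hU hZ (hA i)
  unfold Mach.step
  rw [e, len_blk hZ]

theorem tbl_blk {M : Mach α k Q St} {h : Fin k} {U U' v Z Z' : List α} {l r : ℕ} (hU : U ≠ [])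
    (hZ : Z.length = Z'.length) {c : Cfg k Q St}
    (hA : ∀ i, i ≠ h → (c.p i ≤ U.length + l * v.length ∨
      U.length + l * v.length + Z.length + 1 ≤ c.p i)) :
    tbl M (U ++ blk v Z l r ++ U') h c = tbl M (U ++ blk v Z' l r ++ U') h c := by
  apply tbl_congr (len_blk hZ) rfl (fun _ _ => rfl)
  intro i hi
  exact rd_blk hU hZ (hA i hi)

/-- Simulation of solo runs. -/
theorem soloSim (M : Mach α k Q St) (h : Fin k) (v Z Z' : List α) (hv : 1 ≤ v.length)
    (hZ : Z.length = Z'.length)
    (hE : ∀ l r, (Beh (blk v Z l r) : Table Q α → _) = Beh v)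
    (hE' : ∀ l r, (Beh (blk v Z' l r) : Table Q α → _) = Beh v) (l r : ℕ) (U U' : List α)
    (hU : U ≠ []) (d : Cfg k Q St)
    (hd : Stop M (U ++ blk v Z (l + 1) (r + 1) ++ U') h d) :
    ∀ T c, (∀ i, i ≠ h → (c.p i ≤ U.length ∨ U.length + (blk v Z (l + 1) (r + 1)).length + 1 ≤ c.p i)) →
      (c.p h ≤ U.length + 1 ∨ U.length + (blk v Z (l + 1) (r + 1)).length ≤ c.p h) →
      Solo M (U ++ blk v Z (l + 1) (r + 1) ++ U') h T c d →
      (∃ T', Solo M (U ++ blk v Z' (l + 1) (r + 1) ++ U') h T' c d) ∧
      (d.p h ≤ U.length + v.length ∨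
        U.length + (blk v Z (l + 1) (r + 1)).length + 1 ≤ d.p h + v.length) := by
  intro T
  induction T using Nat.strong_induction_on with
  | _ T ih =>
  intro c hA hp hT
  cases T with
  | zero =>
    have hdc : d = c := hT
    subst hdc
    exact ⟨⟨0, rfl⟩, by omega⟩
  | succ T =>
  have hlen := blk_length v Z (l + 1) (r + 1)
  have hlen' := blk_length v Z' (l + 1) (r + 1)
  have hl1 : v.length ≤ (l + 1) * v.length := by nlinarith
  have hr1 : v.length ≤ (r + 1) * v.length := by nlinarith
  have htot : (U ++ blk v Z (l + 1) (r + 1) ++ U').length =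
      U.length + (blk v Z (l + 1) (r + 1)).length + U'.length := by
    simp only [List.length_append]
  have hA' : ∀ i, i ≠ h → (c.p i ≤ U.length + (l + 1) * v.length ∨
      U.length + (l + 1) * v.length + Z.length + 1 ≤ c.p i) := by
    intro i hi
    rcases hA i hi with h1 | h1
    · left; omega
    · right; omega
  by_cases hout : c.p h ≤ U.length ∨ U.length + (blk v Z (l + 1) (r + 1)).length + 1 ≤ c.p h
  · -- the head is outside the interval
    have hstep : M.step (U ++ blk v Z (l + 1) (r + 1) ++ U') c =
        M.step (U ++ blk v Z' (l + 1) (r + 1) ++ U') c := by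
      apply step_blk hU hZ
      intro i
      by_cases hi : i = h
      · subst hi
        rcases hout with h1 | h1
        · left; omega
        · right; omega
      · exact hA' i hi
    obtain ⟨h4, h6, h7⟩ := hT
    have hA'' : ∀ i, i ≠ h → ((M.step (U ++ blk v Z (l + 1) (r + 1) ++ U') c).p i ≤ U.length ∨
        U.length + (blk v Z (l + 1) (r + 1)).length + 1 ≤
          (M.step (U ++ blk v Z (l + 1) (r + 1) ++ U') c).p i) := by
      intro i hi
      have : (M.step (U ++ blk v Z (l + 1) (r + 1) ++ U') c).p i = c.p i := by
        by_contra hh; exact h6 (Or.inr ⟨i, hi, hh⟩)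
      rw [this]; exact hA i hi
    have hp' : (M.step (U ++ blk v Z (l + 1) (r + 1) ++ U') c).p h ≤ U.length + 1 ∨
        U.length + (blk v Z (l + 1) (r + 1)).length ≤
          (M.step (U ++ blk v Z (l + 1) (r + 1) ++ U') c).p h := by
      rcases hout with h1 | h1
      · left
        have := mv_le (U ++ blk v Z (l + 1) (r + 1) ++ U').length
          ((M.δ c.q c.s (fun i => rd (U ++ blk v Z (l + 1) (r + 1) ++ U') (c.p i))).2.2 h) (c.p h)
        show mv _ _ (c.p h) ≤ _
        omega
      · right
        show _ ≤ mv _ _ (c.p h)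
        apply le_mv <;> omega
    obtain ⟨⟨T', hT'⟩, hpos⟩ := ih T (by omega) _ hA'' hp' h7
    rw [hstep] at hT' h6
    exact ⟨⟨T' + 1, h4, h6, hT'⟩, hpos⟩
  · rw [not_or] at hout
    obtain ⟨ho1, ho2⟩ := hout
    have htbl := tbl_blk (M := M) (h := h) (U := U) (U' := U') (v := v) (l := l + 1) (r := r + 1)
      hU hZ hA'
    rcases hp with hp | hp
    · -- entry from the left
      have hpos : c.p h = U.length + 1 := by omega
      have hc : c = c.set h c.q (U.length + 1) := by rw [← hpos]; exact (c.set_self h).symm
      by_cases hex : ∃ s r', Beh (blk v Z (l + 1) (r + 1))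
          (tbl M (U ++ blk v Z (l + 1) (r + 1) ++ U') h c) false c.q s r'
      · obtain ⟨s, r', hB⟩ := hex
        have hB' : Beh (blk v Z' (l + 1) (r + 1))
            (tbl M (U ++ blk v Z' (l + 1) (r + 1) ++ U') h c) false c.q s r' := by
          rw [← htbl, hE' (l + 1) (r + 1), ← hE (l + 1) (r + 1)]; exact hB
        have hL := Esc.toLR (show Esc _ _ c.q 1 s r' from hB)
        have hL' := Esc.toLR (show Esc _ _ c.q 1 s r' from hB')
        rw [hc] at hT
        obtain ⟨T₂, b1, b2, b3⟩ := LR.forward c hd hL (T + 1) hT
        have b2' : T₂ < T + 1 := by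
          apply b2
          cases s
          · simp
          · simp only [if_true]; omega
        obtain ⟨⟨T', hT'⟩, hdp⟩ := ih T₂ b2' _ (by
          intro i hi
          have : (c.set h r' (U.length + if s = true then (blk v Z (l + 1) (r + 1)).length + 1 else 0)).p i
            = c.p i := by simp [Cfg.set, Function.update_of_ne hi]
          rw [this]; exact hA i hi) (by
          have : (c.set h r' (U.length + if s = true then (blk v Z (l + 1) (r + 1)).length + 1 else 0)).p h =
            U.length + if s = true then (blk v Z (l + 1) (r + 1)).length + 1 else 0 := by simp [Cfg.set]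
          rw [this]
          cases s
          · left; simp
          · right; simp only [if_true]; omega) b3
        have heq : (if s = true then (blk v Z (l + 1) (r + 1)).length + 1 else 0) =
          (if s = true then (blk v Z' (l + 1) (r + 1)).length + 1 else 0) := by rw [hlen, hlen', hZ]
        rw [heq] at hT'
        obtain ⟨T'', hT''⟩ := LR.backward c hL' T' hT'
        rw [← hc] at hT''
        exact ⟨⟨T'', hT''⟩, hdp⟩
      · -- the head stops inside the first block
        rw [hc, blk_left'] at hT
        rw [blk_left'] at hd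
        rcases esc_or_stuck c hd _ c.q 1 le_rfl hv hT with ⟨s, r', h1⟩ | ⟨r', j, j1, j2, hL, hdj⟩
        · exfalso
          apply hex
          refine ⟨s, r', ?_⟩
          rw [hE (l + 1) (r + 1), blk_left']
          exact h1
        · have hL' : LR (tbl M (U ++ v ++ (blk v Z' l (r + 1) ++ U')) h c) v c.q 1 r' j := by
            rw [← blk_left', ← htbl, blk_left']; exact hL
          obtain ⟨T'', hT''⟩ := LR.backward (d := d) c hL' 0 hdj
          rw [← hc, ← blk_left'] at hT''
          refine ⟨⟨T'', hT''⟩, Or.inl ?_⟩
          have : d.p h = U.length + j := by rw [hdj]; simp [Cfg.set]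
          omega
    · -- entry from the right
      have hpos : c.p h = U.length + (blk v Z (l + 1) (r + 1)).length := by omega
      have hc : c = c.set h c.q (U.length + (blk v Z (l + 1) (r + 1)).length) := by
        rw [← hpos]; exact (c.set_self h).symm
      by_cases hex : ∃ s r', Beh (blk v Z (l + 1) (r + 1))
          (tbl M (U ++ blk v Z (l + 1) (r + 1) ++ U') h c) true c.q s r'
      · obtain ⟨s, r', hB⟩ := hex
        have hB' : Beh (blk v Z' (l + 1) (r + 1))
            (tbl M (U ++ blk v Z' (l + 1) (r + 1) ++ U') h c) true c.q s r' := by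
          rw [← htbl, hE' (l + 1) (r + 1), ← hE (l + 1) (r + 1)]; exact hB
        have hL := Esc.toLR (show Esc _ _ c.q (blk v Z (l + 1) (r + 1)).length s r' from hB)
        have hL' := Esc.toLR (show Esc _ _ c.q (blk v Z' (l + 1) (r + 1)).length s r' from hB')
        rw [hc] at hT
        obtain ⟨T₂, b1, b2, b3⟩ := LR.forward c hd hL (T + 1) hT
        have b2' : T₂ < T + 1 := by
          apply b2
          cases s
          · simp only [Bool.false_eq_true, if_false]; omega
          · simp only [if_true]; omega
        obtain ⟨⟨T', hT'⟩, hdp⟩ := ih T₂ b2' _ (by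
          intro i hi
          have : (c.set h r' (U.length + if s = true then (blk v Z (l + 1) (r + 1)).length + 1 else 0)).p i
            = c.p i := by simp [Cfg.set, Function.update_of_ne hi]
          rw [this]; exact hA i hi) (by
          have : (c.set h r' (U.length + if s = true then (blk v Z (l + 1) (r + 1)).length + 1 else 0)).p h =
            U.length + if s = true then (blk v Z (l + 1) (r + 1)).length + 1 else 0 := by simp [Cfg.set]
          rw [this]
          cases s
          · left; simp
          · right; simp only [if_true]; omega) b3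
        have heq : (if s = true then (blk v Z (l + 1) (r + 1)).length + 1 else 0) =
          (if s = true then (blk v Z' (l + 1) (r + 1)).length + 1 else 0) := by rw [hlen, hlen', hZ]
        rw [heq] at hT'
        obtain ⟨T'', hT''⟩ := LR.backward c hL' T' hT'
        rw [hlen', ← hZ, ← hlen, ← hc] at hT''
        exact ⟨⟨T'', hT''⟩, hdp⟩
      · -- the head stops inside the last block
        have hU1 : (U ++ blk v Z (l + 1) r).length + v.length =
            U.length + (blk v Z (l + 1) (r + 1)).length := by
          rw [List.length_append, blk_length, blk_length]; ring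
        have hU2 : (U ++ blk v Z' (l + 1) r).length = (U ++ blk v Z (l + 1) r).length := by
          rw [List.length_append, List.length_append, blk_length, blk_length, hZ]
        rw [hc, blk_right', ← hU1] at hT
        rw [blk_right'] at hd
        rcases esc_or_stuck c hd _ c.q v.length hv le_rfl hT with ⟨s, r', h1⟩ | ⟨r', j, j1, j2, hL, hdj⟩
        · exfalso
          apply hex
          refine ⟨s, r', ?_⟩
          rw [hE (l + 1) (r + 1), blk_right']
          exact h1
        · have hL' : LR (tbl M ((U ++ blk v Z' (l + 1) r) ++ v ++ U') h c) v c.q v.length r' j := by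
            rw [← blk_right', ← htbl, blk_right']; exact hL
          obtain ⟨T'', hT''⟩ := LR.backward (d := d) c hL' 0 (by rw [hU2]; exact hdj)
          rw [hU2, hU1, ← hc, ← blk_right'] at hT''
          refine ⟨⟨T'', hT''⟩, Or.inr ?_⟩
          have : d.p h = (U ++ blk v Z (l + 1) r).length + j := by rw [hdj]; simp [Cfg.set]
          omega

/-- `Ph M w T I c d`: from `c`, in exactly `T` steps and at most `I` maximal pieces, the machine reaches `d`;
it stops at the first accepting configuration. -/
inductive Ph (M : Mach α k Q St) (w : List α) : ℕ → ℕ → Cfg k Q St → Cfg k Q St → Prop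
  | stop (I : ℕ) (c : Cfg k Q St) : (I = 0 ∨ c.q ∈ M.F) → Ph M w 0 I c c
  | single (T I : ℕ) (c d : Cfg k Q St) : c.q ∉ M.F → Ph M w T I (M.step w c) d → Ph M w (T + 1) (I + 1) c d
  | solo (T₁ T I : ℕ) (h : Fin k) (c e d : Cfg k Q St) : c.q ∉ M.F → Solo M w h T₁ c e → Stop M w h e →
      Ph M w T I e d → Ph M w (T₁ + T) (I + 1) c d

/-- Simulation of phases. -/
theorem sim (M : Mach α k Q St) (v Z Z' : List α) (hv : 1 ≤ v.length)
    (hZ : Z.length = Z'.length)
    (hE : ∀ l r, (Beh (blk v Z l r) : Table Q α → _) = Beh v)
    (hE' : ∀ l r, (Beh (blk v Z' l r) : Table Q α → _) = Beh v) (d : Cfg k Q St) :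
    ∀ I l r U U' T c, U ≠ [] → I ≤ l → I ≤ r →
      (∀ i, c.p i ≤ U.length ∨ U.length + (blk v Z l r).length + 1 ≤ c.p i) →
      Ph M (U ++ blk v Z l r ++ U') T I c d →
      ∃ T', Ph M (U ++ blk v Z' l r ++ U') T' I c d := by
  intro I
  induction I with
  | zero =>
    intro l r U U' T c hU hl hr hA hT
    cases hT with
    | stop _ _ h1 => exact ⟨0, Ph.stop _ _ h1⟩
  | succ I ih =>
    intro l r U U' T c hU hl hr hA hT
    obtain ⟨l, rfl⟩ : ∃ l', l = l' + 1 := ⟨l - 1, by omega⟩
    obtain ⟨r, rfl⟩ : ∃ r', r = r' + 1 := ⟨r - 1, by omega⟩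
    have hlen := blk_length v Z (l + 1) (r + 1)
    have hl1 : v.length ≤ (l + 1) * v.length := by nlinarith
    have hr1 : v.length ≤ (r + 1) * v.length := by nlinarith
    have hlen2 : (blk v Z (l + 1) (r + 1)).length = (blk v Z l r).length + 2 * v.length := by
      rw [blk_length, blk_length]; ring
    have htot : (U ++ blk v Z (l + 1) (r + 1) ++ U').length =
        U.length + (blk v Z (l + 1) (r + 1)).length + U'.length := by
      simp only [List.length_append]
    have hUv : (U ++ v).length = U.length + v.length := List.length_append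
    cases hT with
    | stop _ _ h1 => exact ⟨0, Ph.stop _ _ h1⟩
    | single T _ _ _ h1 h2 =>
      have hstep : M.step (U ++ blk v Z (l + 1) (r + 1) ++ U') c =
          M.step (U ++ blk v Z' (l + 1) (r + 1) ++ U') c := by
        apply step_blk hU hZ
        intro i
        rcases hA i with h1 | h1
        · left; omega
        · right; omega
      have hA' : ∀ i, (M.step (U ++ blk v Z (l + 1) (r + 1) ++ U') c).p i ≤ (U ++ v).length ∨
          (U ++ v).length + (blk v Z l r).length + 1 ≤
            (M.step (U ++ blk v Z (l + 1) (r + 1) ++ U') c).p i := by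
        intro i
        rcases hA i with h1 | h1
        · left
          have := mv_le (U ++ blk v Z (l + 1) (r + 1) ++ U').length
            ((M.δ c.q c.s (fun i => rd (U ++ blk v Z (l + 1) (r + 1) ++ U') (c.p i))).2.2 i) (c.p i)
          show mv _ _ (c.p i) ≤ _
          omega
        · right
          show _ ≤ mv _ _ (c.p i)
          apply le_mv <;> omega
      rw [blk_both] at h2
      rw [blk_both] at hA'
      obtain ⟨T', hT'⟩ := ih l r (U ++ v) (v ++ U') T _ (by simp [hU]) (by omega) (by omega) hA' h2
      rw [← blk_both, ← blk_both, hstep] at hT'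
      exact ⟨T' + 1, Ph.single _ _ _ _ h1 hT'⟩
    | solo T₁ T _ h _ e _ hF h1 h2 h3 =>
      obtain ⟨⟨T', hT'⟩, hpos⟩ := soloSim M h v Z Z' hv hZ hE hE' l r U U' hU e h2 T₁ c
        (fun i _ => hA i) (by rcases hA h with h4 | h4; left; omega; right; omega) h1
      have hsame : ∀ i, i ≠ h → e.p i = c.p i := by
        intro i hi
        have key : ∀ (T : ℕ) (c e : Cfg k Q St), Solo M (U ++ blk v Z (l + 1) (r + 1) ++ U') h T c e →
            e.p i = c.p i := by
          intro T
          induction T with
          | zero => intro c e he; have : e = c := he; rw [this]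
          | succ T ihT =>
            rintro c e ⟨_, h5, h6⟩
            rw [ihT _ _ h6]
            by_contra hh
            exact h5 (Or.inr ⟨i, hi, hh⟩)
        exact key _ _ _ h1
      have hA' : ∀ i, e.p i ≤ (U ++ v).length ∨
          (U ++ v).length + (blk v Z l r).length + 1 ≤ e.p i := by
        intro i
        by_cases hi : i = h
        · subst hi
          rcases hpos with h4 | h4
          · left; omega
          · right; omega
        · rw [hsame i hi]
          rcases hA i with h4 | h4
          · left; omega
          · right; omega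
      have hstep : M.step (U ++ blk v Z (l + 1) (r + 1) ++ U') e =
          M.step (U ++ blk v Z' (l + 1) (r + 1) ++ U') e := by
        apply step_blk hU hZ
        intro i
        rcases hA' i with h4 | h4
        · left; omega
        · right
          have := blk_length v Z l r
          have h5 : (l + 1) * v.length = l * v.length + v.length := by ring
          omega
      rw [blk_both] at h3
      obtain ⟨T'', hT''⟩ := ih l r (U ++ v) (v ++ U') T _ (by simp [hU]) (by omega) (by omega) hA' h3
      rw [← blk_both] at hT''
      unfold Stop at h2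
      rw [hstep] at h2
      exact ⟨T' + T'', Ph.solo _ _ _ h _ e _ hF hT' h2 hT''⟩

end Pool.Agent.H541R2
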